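import Pool.Agent.N573.LPG.Stm
import Pool.Agent.H992R2.NormExp

/-!
# MP_98bed0_pr: the mean of the norm of the random matrix
-/

set_option autoImplicit false

open MeasureTheory ProbabilityTheory Filter Topology

namespace Pool.Agent.N573.LPG

open Pool.Agent.H320R2.LD
open Pool.Agent.H992R2 (Ph exists_net norm_le_net)

noncomputable section

theorem int_exp {V : Type} [Fintype V] (b : V → ℝ) :
    Integrable (fun g : V → ℝ => Real.exp (∑ z, b z * g z)) (gam V) ∧
      ∫ g, Real.exp (∑ z, b z * g z) ∂(gam V) = Real.exp ((∑ z, b z ^ 2) / 2) := by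
  have h1 : ∀ g : V → ℝ, Real.exp (∑ z, b z * g z) = ∏ z, Real.exp (b z * g z) := fun g =>
    Real.exp_sum _ _
  simp_rw [h1]
  constructor
  · unfold gam
    exact Integrable.fintype_prod (f := fun z x => Real.exp (b z * x))
      (fun z => integrable_exp_mul_gaussianReal (b z))
  · unfold gam
    rw [integral_fintype_prod_eq_prod (fun z x => Real.exp (b z * x))]
    have h2 : ∀ z, ∫ x, Real.exp (b z * x) ∂(gaussianReal 0 1) = Real.exp (b z ^ 2 / 2) := by
      intro z
      have h3 := congrFun (mgf_fun_id_gaussianReal (μ := 0) (v := 1)) (b z)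
      unfold mgf at h3
      rw [h3]
      congr 1
      simp
    simp_rw [h2]
    rw [← Real.exp_sum, Finset.sum_div]

/-- the coefficients of the bilinear form -/
def bco {n : ℕ} (c d : Fin n → ℝ) (z : U n) : ℝ :=
  ∑ q ∈ Finset.univ.filter (fun q : Fin n × Fin n => pr q.1 q.2 = z),
    (if q.1 = q.2 then Real.sqrt 2 else 1) * c q.2 * d q.1

theorem bil_eq {n : ℕ} (g : U n → ℝ) (c d : Fin n → ℝ) :
    ∑ i, (∑ j, Wm g i j * c j) * d i = ∑ z, bco c d z * g z := by
  unfold bco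
  have h1 : ∑ i, (∑ j, Wm g i j * c j) * d i = ∑ q : Fin n × Fin n,
      (if q.1 = q.2 then Real.sqrt 2 else 1) * c q.2 * d q.1 * g (pr q.1 q.2) := by
    rw [Fintype.sum_prod_type]
    refine Finset.sum_congr rfl fun i _ => ?_
    rw [Finset.sum_mul]
    refine Finset.sum_congr rfl fun j _ => ?_
    unfold Wm
    ring
  rw [h1, ← Finset.sum_fiberwise_of_maps_to (g := fun q : Fin n × Fin n => pr q.1 q.2)
    (t := Finset.univ) (fun _ _ => Finset.mem_univ _)]
  refine Finset.sum_congr rfl fun z _ => ?_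
  rw [Finset.sum_mul]
  refine Finset.sum_congr rfl fun q hq => ?_
  rw [Finset.mem_filter] at hq
  rw [hq.2]

theorem fiber_card {n : ℕ} (z : U n) :
    (Finset.univ.filter (fun q : Fin n × Fin n => pr q.1 q.2 = z)).card ≤ 2 := by
  have h1 : Finset.univ.filter (fun q : Fin n × Fin n => pr q.1 q.2 = z) ⊆
      {(z.1.1, z.1.2), (z.1.2, z.1.1)} := by
    intro q hq
    rw [Finset.mem_filter] at hq
    have h2 := hq.2
    have h3 : (min q.1 q.2, max q.1 q.2) = z.1 := congrArg Subtype.val h2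
    rw [Finset.mem_insert, Finset.mem_singleton]
    rcases le_total q.1 q.2 with h | h
    · left
      rw [min_eq_left h, max_eq_right h] at h3
      rw [← h3]
    · right
      rw [min_eq_right h, max_eq_left h] at h3
      rw [← h3]
  exact (Finset.card_le_card h1).trans (Finset.card_le_two)

theorem bco_sq {n : ℕ} (c d : Fin n → ℝ) (hc : ∑ i, c i ^ 2 ≤ 1) (hd : ∑ i, d i ^ 2 ≤ 1) :
    ∑ z, bco c d z ^ 2 ≤ 4 := by
  have h1 : ∀ z : U n, bco c d z ^ 2 ≤ ∑ q ∈ Finset.univ.filter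
      (fun q : Fin n × Fin n => pr q.1 q.2 = z), 4 * (c q.2 ^ 2 * d q.1 ^ 2) := by
    intro z
    unfold bco
    refine (sq_sum_le_card_mul_sum_sq).trans ?_
    rw [Finset.mul_sum]
    refine Finset.sum_le_sum fun q _ => ?_
    have h2 : ((Finset.univ.filter (fun q : Fin n × Fin n => pr q.1 q.2 = z)).card : ℝ) ≤ 2 := by
      exact_mod_cast fiber_card z
    have h3 : ((if q.1 = q.2 then Real.sqrt 2 else 1) * c q.2 * d q.1) ^ 2 ≤
        2 * (c q.2 ^ 2 * d q.1 ^ 2) := by
      have h4 : (if q.1 = q.2 then Real.sqrt 2 else (1 : ℝ)) ^ 2 ≤ 2 := by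
        split_ifs
        · rw [Real.sq_sqrt (by norm_num)]
        · norm_num
      have h5 : ((if q.1 = q.2 then Real.sqrt 2 else 1) * c q.2 * d q.1) ^ 2 =
          (if q.1 = q.2 then Real.sqrt 2 else (1 : ℝ)) ^ 2 * (c q.2 ^ 2 * d q.1 ^ 2) := by ring
      rw [h5]
      gcongr
    calc _ ≤ (2 : ℝ) * (2 * (c q.2 ^ 2 * d q.1 ^ 2)) := by gcongr
      _ = _ := by ring
  calc
    ∑ z, bco c d z ^ 2 ≤ ∑ z, ∑ q ∈ Finset.univ.filter
          (fun q : Fin n × Fin n => pr q.1 q.2 = z), 4 * (c q.2 ^ 2 * d q.1 ^ 2) :=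
        Finset.sum_le_sum fun z _ => h1 z
    _ = ∑ q : Fin n × Fin n, 4 * (c q.2 ^ 2 * d q.1 ^ 2) :=
        Finset.sum_fiberwise_of_maps_to (g := fun q : Fin n × Fin n => pr q.1 q.2)
          (t := Finset.univ) (fun _ _ => Finset.mem_univ _) _
    _ = 4 * ((∑ i, d i ^ 2) * ∑ i, c i ^ 2) := by
        rw [Fintype.sum_prod_type, Finset.sum_mul, Finset.mul_sum]
        refine Finset.sum_congr rfl fun i _ => ?_
        rw [Finset.mul_sum, Finset.mul_sum]
        refine Finset.sum_congr rfl fun j _ => ?_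
        ring
    _ ≤ 4 * (1 * 1) := by
        have h6 : 0 ≤ ∑ i, c i ^ 2 := Finset.sum_nonneg fun i _ => sq_nonneg _
        have h7 : 0 ≤ ∑ i, d i ^ 2 := Finset.sum_nonneg fun i _ => sq_nonneg _
        gcongr
    _ = 4 := by norm_num

theorem t_EUP : T_EUP := by
  refine ⟨28, by norm_num, fun n hn => ?_⟩
  obtain ⟨s, hcard, hs1, hs⟩ := exists_net n
  have hn1 : (1 : ℝ) ≤ n := by exact_mod_cast hn
  set a := Real.sqrt (n : ℝ) with ha
  have ha1 : 1 ≤ a := Real.one_le_sqrt.mpr hn1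
  have haa : a * a = n := Real.mul_self_sqrt (by linarith)
  set B : (U n → ℝ) → EuclideanSpace ℝ (Fin n) → EuclideanSpace ℝ (Fin n) → ℝ := fun g c d =>
    ∑ z, (a * bco (WithLp.ofLp c) (WithLp.ofLp d) z) * g z with hB
  have hsq : ∀ c ∈ s, ∑ i, (WithLp.ofLp c) i ^ 2 ≤ 1 := by
    intro c hc
    have h1 := hs1 c hc
    have h2 : ‖c‖ ^ 2 = ∑ i, (WithLp.ofLp c) i ^ 2 := by
      rw [EuclideanSpace.norm_sq_eq]
      refine Finset.sum_congr rfl fun i _ => ?_
      rw [Real.norm_eq_abs, sq_abs]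
    rw [← h2]
    have h3 := norm_nonneg c
    nlinarith
  set N : (U n → ℝ) → ℝ := fun g => 24 * a + 4 * Real.exp (-(6 * n)) *
    ∑ c ∈ s, ∑ d ∈ s, Real.exp (B g c d) with hN
  have hI : ∀ c ∈ s, ∀ d ∈ s, Integrable (fun g => Real.exp (B g c d)) (gam (U n)) ∧
      ∫ g, Real.exp (B g c d) ∂(gam (U n)) ≤ Real.exp (2 * n) := by
    intro c hc d hd
    have h1 := int_exp (V := U n) (fun z => a * bco (WithLp.ofLp c) (WithLp.ofLp d) z)
    refine ⟨h1.1, ?_⟩
    rw [h1.2]
    apply Real.exp_le_exp.2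
    have h2 := bco_sq _ _ (hsq c hc) (hsq d hd)
    have h3 : ∑ z : U n, (a * bco (WithLp.ofLp c) (WithLp.ofLp d) z) ^ 2 =
        n * ∑ z : U n, bco (WithLp.ofLp c) (WithLp.ofLp d) z ^ 2 := by
      rw [Finset.mul_sum]
      refine Finset.sum_congr rfl fun z _ => ?_
      rw [mul_pow, ← haa]
      ring
    rw [h3]
    nlinarith
  have hNi : Integrable N (gam (U n)) := by
    rw [hN]
    refine (integrable_const _).add ?_
    refine Integrable.const_mul ?_ _
    exact integrable_finsetSum _ fun c hc => integrable_finsetSum _ fun d hd => (hI c hc d hd).1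
  refine ⟨N, hNi, ?_, ?_, ?_⟩
  · have h1 : ∫ g, N g ∂(gam (U n)) = 24 * a + 4 * Real.exp (-(6 * n)) *
        ∑ c ∈ s, ∑ d ∈ s, ∫ g, Real.exp (B g c d) ∂(gam (U n)) := by
      have e1 : ∫ g, ∑ c ∈ s, ∑ d ∈ s, Real.exp (B g c d) ∂(gam (U n)) =
          ∑ c ∈ s, ∑ d ∈ s, ∫ g, Real.exp (B g c d) ∂(gam (U n)) := by
        rw [integral_finsetSum _ (fun c hc => integrable_finsetSum _ fun d hd =>
          (hI c hc d hd).1)]
        refine Finset.sum_congr rfl fun c hc => ?_
        rw [integral_finsetSum _ fun d hd => (hI c hc d hd).1]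
      have e2 : Integrable (fun g => 4 * Real.exp (-(6 * n)) *
          ∑ c ∈ s, ∑ d ∈ s, Real.exp (B g c d)) (gam (U n)) := Integrable.const_mul
        (integrable_finsetSum _ fun c hc => integrable_finsetSum _ fun d hd => (hI c hc d hd).1) _
      have e3 : ∫ g, N g ∂(gam (U n)) = ∫ g, (24 * a) ∂(gam (U n)) +
          ∫ g, (4 * Real.exp (-(6 * n)) * ∑ c ∈ s, ∑ d ∈ s, Real.exp (B g c d)) ∂(gam (U n)) :=
        integral_add (integrable_const _) e2
      have e4 : ∫ g, (4 * Real.exp (-(6 * n)) *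
          ∑ c ∈ s, ∑ d ∈ s, Real.exp (B g c d)) ∂(gam (U n)) = 4 * Real.exp (-(6 * n)) *
          ∫ g, ∑ c ∈ s, ∑ d ∈ s, Real.exp (B g c d) ∂(gam (U n)) := integral_const_mul _ _
      rw [e3, e4, e1]
      congr 1
      simp
    rw [h1]
    have h2 : ∑ c ∈ s, ∑ d ∈ s, ∫ g, Real.exp (B g c d) ∂(gam (U n)) ≤
        5 ^ n * (5 ^ n * Real.exp (2 * n)) := by
      have hc' : (s.card : ℝ) ≤ 5 ^ n := by exact_mod_cast hcard
      calc _ ≤ ∑ c ∈ s, ∑ d ∈ s, Real.exp (2 * n) :=
            Finset.sum_le_sum fun c hc => Finset.sum_le_sum fun d hd => (hI c hc d hd).2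
        _ = s.card * (s.card * Real.exp (2 * n)) := by
            simp only [Finset.sum_const, nsmul_eq_mul]
        _ ≤ _ := by gcongr
    have h3 : (5 : ℝ) ^ n * (5 ^ n * Real.exp (2 * n)) ≤ Real.exp (6 * n) := by
      have h4 : (5 : ℝ) ≤ Real.exp 2 := by
        have h4 := Real.exp_one_gt_d9
        have h5 : Real.exp 2 = Real.exp 1 * Real.exp 1 := by rw [← Real.exp_add]; norm_num
        rw [h5]; nlinarith
      have h5 : (5 : ℝ) ^ n ≤ Real.exp (2 * n) := by
        calc (5 : ℝ) ^ n ≤ Real.exp 2 ^ n := by gcongr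
          _ = Real.exp (2 * n) := by rw [← Real.exp_nat_mul]; ring_nf
      calc (5 : ℝ) ^ n * (5 ^ n * Real.exp (2 * n)) ≤
          Real.exp (2 * n) * (Real.exp (2 * n) * Real.exp (2 * n)) := by gcongr
        _ = Real.exp (6 * n) := by rw [← Real.exp_add, ← Real.exp_add]; ring_nf
    have h6 : Real.exp (-(6 * (n : ℝ))) * Real.exp (6 * n) = 1 := by
      rw [← Real.exp_add]; simp
    have h7 : Real.exp (-(6 * (n : ℝ))) * ∑ c ∈ s, ∑ d ∈ s, ∫ g, Real.exp (B g c d) ∂(gam (U n))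
        ≤ 1 := by
      rw [← h6]
      gcongr
      exact h2.trans h3
    have h8 : 4 * Real.exp (-(6 * (n : ℝ))) *
        ∑ c ∈ s, ∑ d ∈ s, ∫ g, Real.exp (B g c d) ∂(gam (U n)) ≤ 4 := by
      rw [mul_assoc]
      linarith
    linarith
  · intro g
    rw [hN]
    have : 0 ≤ ∑ c ∈ s, ∑ d ∈ s, Real.exp (B g c d) :=
      Finset.sum_nonneg fun c _ => Finset.sum_nonneg fun d _ => (Real.exp_pos _).le
    positivity
  · intro g y
    set L := Ph (Matrix.of (Wm g)) with hL
    have hLa : ∀ (c : EuclideanSpace ℝ (Fin n)) (i : Fin n), (L c) i =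
        ∑ j, Wm g i j * (WithLp.ofLp c) j := by
      intro c i
      rw [hL]
      rfl
    have hin : ∀ c d : EuclideanSpace ℝ (Fin n), inner ℝ d (L c) =
        ∑ i, (∑ j, Wm g i j * (WithLp.ofLp c) j) * (WithLp.ofLp d) i := by
      intro c d
      rw [PiLp.inner_apply]
      refine Finset.sum_congr rfl fun i _ => ?_
      rw [hLa]
      simp [mul_comm]
    -- the norm
    obtain ⟨c, hc, hLc⟩ := norm_le_net hs L
    have hv : ∃ d ∈ s, ‖L c‖ ≤ 2 * inner ℝ d (L c) := by
      by_cases h0 : ‖L c‖ = 0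
      · obtain ⟨d, hd, _⟩ := hs 0 (by simp)
        refine ⟨d, hd, ?_⟩
        have : L c = 0 := norm_eq_zero.1 h0
        rw [this]
        simp
      · obtain ⟨d, hd, hd2⟩ := hs ((‖L c‖)⁻¹ • L c) (by
          rw [norm_smul, norm_inv, norm_norm, inv_mul_cancel₀ h0])
        refine ⟨d, hd, ?_⟩
        have h1 : inner ℝ ((‖L c‖)⁻¹ • L c) (L c) = ‖L c‖ := by
          rw [inner_smul_left, real_inner_self_eq_norm_sq]
          simp only [conj_trivial]
          field_simp
        have h2 : inner ℝ ((‖L c‖)⁻¹ • L c) (L c) = inner ℝ d (L c) +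
            inner ℝ ((‖L c‖)⁻¹ • L c - d) (L c) := by
          rw [← inner_add_left]
          congr 1
          abel
        have h3 : inner ℝ ((‖L c‖)⁻¹ • L c - d) (L c) ≤ 1 / 2 * ‖L c‖ := by
          refine (real_inner_le_norm _ _).trans ?_
          gcongr
        linarith
    obtain ⟨d, hd, hdL⟩ := hv
    have h1 : ‖L‖ ≤ 4 * inner ℝ d (L c) := by linarith
    have h2 : a * inner ℝ d (L c) = B g c d := by
      rw [hin, bil_eq, hB, Finset.mul_sum]
      refine Finset.sum_congr rfl fun z _ => ?_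
      ring
    have h3 : B g c d - 6 * n + 1 ≤ Real.exp (B g c d - 6 * n) := Real.add_one_le_exp _
    have h4 : Real.exp (B g c d) ≤ ∑ c ∈ s, ∑ d ∈ s, Real.exp (B g c d) := by
      calc Real.exp (B g c d) ≤ ∑ d ∈ s, Real.exp (B g c d) :=
            Finset.single_le_sum (f := fun d => Real.exp (B g c d))
              (fun _ _ => (Real.exp_pos _).le) hd
        _ ≤ _ := Finset.single_le_sum (f := fun c => ∑ d ∈ s, Real.exp (B g c d))
              (fun _ _ => Finset.sum_nonneg fun _ _ => (Real.exp_pos _).le) hc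
    have h5 : Real.exp (B g c d - 6 * n) = Real.exp (-(6 * n)) * Real.exp (B g c d) := by
      rw [← Real.exp_add]
      ring_nf
    set X := Real.exp (-(6 * (n : ℝ))) * ∑ c ∈ s, ∑ d ∈ s, Real.exp (B g c d) with hX
    have h6 : Real.exp (-(6 * (n : ℝ))) * Real.exp (B g c d) ≤ X := by
      rw [hX]
      gcongr
    have hX0 : 0 ≤ X := le_trans (by positivity) h6
    have h7 : a * inner ℝ d (L c) ≤ a * (6 * a + X) := by
      rw [h2]
      have h8 : a * (6 * a) = 6 * n := by rw [← haa]; ring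
      have h9 : X ≤ a * X := by nlinarith
      nlinarith
    have h8 : inner ℝ d (L c) ≤ 6 * a + X := le_of_mul_le_mul_left h7 (by linarith)
    have h9 : ‖L‖ ≤ N g := by
      have h10 : N g = 24 * a + 4 * X := by rw [hN, hX]; ring
      rw [h10]
      linarith
    -- the quadratic form
    have h10 : Hf g y = inner ℝ (WithLp.toLp 2 y : EuclideanSpace ℝ (Fin n))
        (L (WithLp.toLp 2 y)) := by
      rw [hin]
      unfold Hf
      refine Finset.sum_congr rfl fun i _ => ?_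
      rw [Finset.sum_mul]
      refine Finset.sum_congr rfl fun j _ => ?_
      ring
    have h11 : ‖(WithLp.toLp 2 y : EuclideanSpace ℝ (Fin n))‖ ^ 2 = ∑ i, y i ^ 2 := by
      rw [EuclideanSpace.norm_sq_eq]
      refine Finset.sum_congr rfl fun i _ => ?_
      rw [Real.norm_eq_abs, sq_abs]
    rw [h10, ← h11]
    calc inner ℝ (WithLp.toLp 2 y : EuclideanSpace ℝ (Fin n)) (L (WithLp.toLp 2 y)) ≤
        ‖(WithLp.toLp 2 y : EuclideanSpace ℝ (Fin n))‖ * ‖L (WithLp.toLp 2 y)‖ :=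
          real_inner_le_norm _ _
      _ ≤ ‖(WithLp.toLp 2 y : EuclideanSpace ℝ (Fin n))‖ *
          (‖L‖ * ‖(WithLp.toLp 2 y : EuclideanSpace ℝ (Fin n))‖) := by
          gcongr
          exact L.le_opNorm _
      _ = ‖L‖ * ‖(WithLp.toLp 2 y : EuclideanSpace ℝ (Fin n))‖ ^ 2 := by ring
      _ ≤ N g * ‖(WithLp.toLp 2 y : EuclideanSpace ℝ (Fin n))‖ ^ 2 := by gcongr

end

end Pool.Agent.N573.LPG
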