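import Pool.Agent.N573.LPG.P1

set_option autoImplicit false

open MeasureTheory ProbabilityTheory Filter Topology

namespace Pool.Agent.N573.LPG

open Pool.Agent.H320R2.LD

noncomputable section

/-- the fluctuation bound -/
def tt (n : ℕ) : ℝ := Real.sqrt (128 * (n * Real.log n))

theorem tt_nonneg (n : ℕ) : 0 ≤ tt n := Real.sqrt_nonneg _

theorem tt_exp {n : ℕ} (hn : 1 ≤ n) (c : ℝ) (hc : 1 ≤ c) :
    Real.exp (-(c * tt n) ^ 2 / (4 * (c * (2 * Real.sqrt n)) ^ 2)) = 1 / (n : ℝ) ^ 8 := by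
  have hn' : (0 : ℝ) < n := by exact_mod_cast hn
  have hlog : 0 ≤ Real.log n := Real.log_natCast_nonneg n
  have e1 : tt n ^ 2 = 128 * (n * Real.log n) := Real.sq_sqrt (by positivity)
  have e2 : Real.sqrt n ^ 2 = n := Real.sq_sqrt hn'.le
  have e3 : -(c * tt n) ^ 2 / (4 * (c * (2 * Real.sqrt n)) ^ 2) = -(8 * Real.log n) := by
    have : (c * (2 * Real.sqrt n)) ^ 2 = c ^ 2 * (4 * n) := by
      rw [mul_pow, mul_pow, e2]; ring
    rw [this, mul_pow, e1]
    field_simp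
    ring
  rw [e3, Real.exp_neg, one_div]
  congr 1
  rw [show (8 : ℝ) * Real.log n = ((8 : ℕ) : ℝ) * Real.log n by norm_num, Real.exp_nat_mul,
    Real.exp_log hn']

theorem int_nrm {J : Type} [Fintype J] : Integrable (fun w : J → ℝ => nrm w) (gam J) :=
  lip_int one_pos lip_nrm

theorem nrm_tail (hN : T_NRM) {n : ℕ} (hn : 1 ≤ n) :
    gam (Fin n) {w | 2 * Real.sqrt n < nrm w} ≤ ENNReal.ofReal (Real.exp (-(n : ℝ) / 4)) := by
  have h := conc_up (V := Fin n) one_pos lip_nrm (Real.sqrt_nonneg (n : ℝ))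
  have e2 : Real.sqrt (n : ℝ) ^ 2 = n := Real.sq_sqrt (Nat.cast_nonneg n)
  have hle := (hN (Fin n)).2
  rw [Fintype.card_fin] at hle
  rw [e2, one_pow, mul_one] at h
  refine (measure_mono ?_).trans h
  intro w hw
  have hw' : 2 * Real.sqrt n < nrm w := hw
  show (∫ y, nrm y ∂(gam (Fin n))) + Real.sqrt n ≤ nrm w
  linarith

theorem meas_dg {n : ℕ} : Measurable (fun g : U n → ℝ => dg g) := by
  unfold dg
  exact measurable_pi_lambda _ fun i => measurable_pi_apply _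

theorem dg_inj {n : ℕ} : Function.Injective (fun i : Fin n => pr i i) := by
  intro a b h
  have h' : pr a a = pr b b := h
  unfold pr at h'
  simp only [Subtype.mk.injEq, Prod.mk.injEq, min_self] at h'
  exact h'.1

theorem dg_tail (hN : T_NRM) (hLAW : T_LAW) {n : ℕ} (hn : 1 ≤ n) :
    gam (U n) {g | 2 * Real.sqrt n < nrm (dg g)} ≤ ENNReal.ofReal (Real.exp (-(n : ℝ) / 4)) := by
  have hmp := hLAW (U n) (Fin n) (fun i => pr i i) dg_inj
  have hm : MeasurableSet {w : Fin n → ℝ | 2 * Real.sqrt n < nrm w} :=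
    measurableSet_lt measurable_const cont_nrm.measurable
  have := hmp.measure_preimage hm.nullMeasurableSet
  have e : (fun (g : U n → ℝ) (j : Fin n) => g (pr j j)) ⁻¹' {w | 2 * Real.sqrt n < nrm w} =
      {g | 2 * Real.sqrt n < nrm (dg g)} := rfl
  rw [← e, this]
  exact nrm_tail hN hn

theorem mean_M (hEUP : T_EUP) : ∃ C₁ : ℝ, 0 < C₁ ∧ ∀ p : ℝ, 2 < p → ∀ n : ℕ, 1 ≤ n →
    ∫ g, M p (∅ : Finset (Fin n)) g 0 ∂(gam (U n)) ≤ C₁ * (n * Real.sqrt n) := by
  obtain ⟨C₁, hC, h⟩ := hEUP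
  refine ⟨C₁, hC, fun p hp n hn => ?_⟩
  obtain ⟨N, hNi, hNe, hN0, hNH⟩ := h n hn
  have hn' : (0 : ℝ) < n := by exact_mod_cast hn
  have h1 : ∀ g, M p (∅ : Finset (Fin n)) g 0 ≤ n * N g := by
    intro g
    obtain ⟨y, hy, hM, -⟩ := t_ATT p hp n ∅ g 0
    have h2 : dt (0 : Fin n → ℝ) y = 0 := by unfold dt; simp
    rw [hM, h2, mul_zero, add_zero]
    have h3 := mul_le_mul_of_nonneg_left (t_SQ p hp n ∅ y hy) (hN0 g)
    linarith [hNH g y]
  calc ∫ g, M p (∅ : Finset (Fin n)) g 0 ∂(gam (U n)) ≤ ∫ g, n * N g ∂(gam (U n)) :=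
        integral_mono (lip_int (by positivity) (lip_M_g hp ∅ 0)) (hNi.const_mul _) h1
    _ = n * ∫ g, N g ∂(gam (U n)) := integral_const_mul _ _
    _ ≤ n * (C₁ * Real.sqrt n) := mul_le_mul_of_nonneg_left hNe hn'.le
    _ = C₁ * (n * Real.sqrt n) := by ring

theorem M_tail {C₁ p : ℝ} (hp : 2 < p) {n : ℕ} (hn : 1 ≤ n)
    (h : ∫ g, M p (∅ : Finset (Fin n)) g 0 ∂(gam (U n)) ≤ C₁ * (n * Real.sqrt n)) :
    gam (U n) {g | (C₁ + 1) * (n * Real.sqrt n) < M p ∅ g 0} ≤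
      ENNReal.ofReal (Real.exp (-(n : ℝ) / 16)) := by
  have hn' : (0 : ℝ) < n := by exact_mod_cast hn
  have h1 := conc_up (V := U n) (f := fun g => M p ∅ g 0) (L := 2 * n) (by positivity)
    (lip_M_g hp ∅ 0) (u := n * Real.sqrt n) (by positivity)
  have e2 : Real.sqrt (n : ℝ) ^ 2 = n := Real.sq_sqrt (Nat.cast_nonneg n)
  have e3 : -(n * Real.sqrt n) ^ 2 / (4 * (2 * (n : ℝ)) ^ 2) = -(n : ℝ) / 16 := by
    rw [mul_pow, e2]
    field_simp
    norm_num
  rw [e3] at h1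
  refine (measure_mono ?_).trans h1
  intro g hg
  have hg' : (C₁ + 1) * (n * Real.sqrt n) < M p ∅ g 0 := hg
  show (∫ g, M p (∅ : Finset (Fin n)) g 0 ∂(gam (U n))) + n * Real.sqrt n ≤ M p ∅ g 0
  linarith

theorem row_conc_lo (hRES : T_RES) {p : ℝ} (hp : 2 < p) {n : ℕ} (hn : 1 ≤ n)
    (S : Finset (Fin n)) (i : Fin n) (v : Fin n → ℝ) :
    gam (U n) {g | M p (insert i S) g (v + row g i) + tt n < RI p (insert i S) g v} ≤
      ENNReal.ofReal (1 / (n : ℝ) ^ 8) := by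
  have hn' : (0 : ℝ) < n := by exact_mod_cast hn
  have hi : i ∈ insert i S := Finset.mem_insert_self i S
  set E : Set ((U n → ℝ) × (Fin n → ℝ)) :=
    {q | M p (insert i S) q.1 (v + q.2) + tt n < RI p (insert i S) q.1 v} with hE
  have hEm : MeasurableSet E := by
    apply measurableSet_lt
    · exact ((cont_M hp (insert i S)).comp (continuous_fst.prodMk
        (continuous_const.add continuous_snd))).measurable.add measurable_const
    · exact ((cont_RI hn hp (insert i S)).comp (continuous_fst.prodMk continuous_const)).measurable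
  refine row_event hRES i hEm ?_ ?_
  · intro g g' hgg w
    simp only [hE, Set.mem_ofPred_eq]
    rw [M_dep hi hgg, RI_dep hi hgg]
  · intro g
    have h1 := conc_lo (V := Fin n) (f := fun w => M p (insert i S) g (v + w))
      (L := 2 * Real.sqrt n) (by positivity) (lip_M_v hp _ g v) (tt_nonneg n)
    have h2 := tt_exp hn 1 le_rfl
    rw [one_mul, one_mul] at h2
    rw [h2] at h1
    refine (measure_mono ?_).trans h1
    intro w hw
    have hw' : M p (insert i S) g (v + w) + tt n < RI p (insert i S) g v := hw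
    exact le_of_lt hw'

theorem ev_small : ∀ᶠ n : ℕ in atTop, 3 * Real.exp (-(n : ℝ) / 16) + 1 / (n : ℝ) ^ 7 ≤
    1 / (n : ℝ) ^ 6 := by
  have h1 : Tendsto (fun n : ℕ => ((n : ℝ) / 16) ^ 6 * Real.exp (-((n : ℝ) / 16))) atTop (𝓝 0) :=
    (Real.tendsto_pow_mul_exp_neg_atTop_nhds_zero 6).comp
      (tendsto_natCast_atTop_atTop.atTop_div_const (by norm_num))
  have h2 := h1.eventually (gt_mem_nhds (show (0 : ℝ) < 1 / (6 * 16 ^ 6) by norm_num))
  filter_upwards [h2, eventually_ge_atTop 2] with n hn hn2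
  have hn' : (2 : ℝ) ≤ n := by exact_mod_cast hn2
  have hn6 : (0 : ℝ) < (n : ℝ) ^ 6 := by positivity
  have h3 : (n : ℝ) ^ 6 * (3 * Real.exp (-(n : ℝ) / 16)) ≤ 1 / 2 := by
    rw [div_pow] at hn
    rw [← neg_div] at hn
    have h4 : (n : ℝ) ^ 6 * Real.exp (-(n : ℝ) / 16) < 1 / 6 := by
      have : (n : ℝ) ^ 6 * Real.exp (-(n : ℝ) / 16) =
          16 ^ 6 * ((n : ℝ) ^ 6 / 16 ^ 6 * Real.exp (-(n : ℝ) / 16)) := by ring
      rw [this]
      calc 16 ^ 6 * ((n : ℝ) ^ 6 / 16 ^ 6 * Real.exp (-(n : ℝ) / 16))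
          < 16 ^ 6 * (1 / (6 * 16 ^ 6)) := by
            apply mul_lt_mul_of_pos_left hn; norm_num
        _ = 1 / 6 := by norm_num
    linarith
  have h5 : (n : ℝ) ^ 6 * (1 / (n : ℝ) ^ 7) ≤ 1 / 2 := by
    have : (n : ℝ) ^ 6 * (1 / (n : ℝ) ^ 7) = 1 / n := by
      field_simp
    rw [this, div_le_div_iff₀ (by linarith) (by norm_num)]
    linarith
  rw [le_div_iff₀ hn6]
  nlinarith

end

end Pool.Agent.N573.LPG
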