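import Pool.Agent.N573.LPG.P1b

set_option autoImplicit false

open MeasureTheory ProbabilityTheory Filter Topology

namespace Pool.Agent.N573.LPG

open Pool.Agent.H320R2.LD

noncomputable section

/-- the good event implies the bound for the response -/
theorem resp_good (hREM : T_REM) (hINS : T_INS) (hN : T_NRM) {p : ℝ} (hp : 2 < p) {n : ℕ}
    (hn3 : 3 ≤ n) (S : Finset (Fin n)) (hS : S.card ≤ 1) (k : ℕ) (hk : k ≤ 5 * n) (C₁ : ℝ)
    (hC₁ : 0 < C₁) (g : U n → ℝ) (u : Fin n → ℝ)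
    (c1 : M p ∅ g 0 ≤ (C₁ + 1) * (n * Real.sqrt n)) (c2 : nrm u ≤ 2 * Real.sqrt n)
    (c3 : nrm (dg g) ≤ 2 * Real.sqrt n)
    (c4 : ∀ i : Fin n, RI p (insert i S) g (fun j => Real.sqrt k * u j) ≤
      M p (insert i S) g ((fun j => Real.sqrt k * u j) + row g i) + tt n) :
    Rr p S g (fun j => Real.sqrt k * u j) ≤
      (2 * (6 * (C₁ + 1) + 160) + 12) * Real.sqrt (n * Real.log n) := by
  have hn2 : 2 ≤ n := by omega
  have hn' : (3 : ℝ) ≤ n := by exact_mod_cast hn3
  have hlog : 1 ≤ Real.log n := by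
    rw [Real.le_log_iff_exp_le (by linarith)]
    have := Real.exp_one_lt_d9
    linarith
  have hks : Real.sqrt k ≤ 3 * Real.sqrt n := by
    have h1 : Real.sqrt k ≤ Real.sqrt (9 * n) := by
      apply Real.sqrt_le_sqrt
      have : (k : ℝ) ≤ 5 * n := by exact_mod_cast hk
      linarith
    rw [Real.sqrt_mul (by norm_num), show (9 : ℝ) = 3 ^ 2 by norm_num, Real.sqrt_sq (by norm_num)]
      at h1
    exact h1
  have hss : Real.sqrt n * Real.sqrt n = n := Real.mul_self_sqrt (by linarith)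
  have hv : nrm (fun j => Real.sqrt k * u j) ≤ 6 * n := by
    rw [nrm_smul, abs_of_nonneg (Real.sqrt_nonneg _)]
    calc Real.sqrt k * nrm u ≤ (3 * Real.sqrt n) * (2 * Real.sqrt n) :=
          mul_le_mul hks c2 (nrm_nn _) (by positivity)
      _ = 6 * (Real.sqrt n * Real.sqrt n) := by ring
      _ = 6 * n := by rw [hss]
  have hdet := resp_det hREM hINS hN hp hn2 S hS g (fun j => Real.sqrt k * u j) (C₁ + 1) (tt n)
    (by positivity) (tt_nonneg n) c1 hv c3 (fun i _ => c4 i)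
  have e1 : Real.sqrt n ≤ Real.sqrt (n * Real.log n) := by
    apply Real.sqrt_le_sqrt
    nlinarith
  have e2 : tt n ≤ 12 * Real.sqrt (n * Real.log n) := by
    unfold tt
    rw [Real.sqrt_mul (by norm_num)]
    apply mul_le_mul_of_nonneg_right _ (Real.sqrt_nonneg _)
    rw [Real.sqrt_le_left (by norm_num)]
    norm_num
  have e3 : 2 * (6 * (C₁ + 1) + 160) * Real.sqrt n ≤
      2 * (6 * (C₁ + 1) + 160) * Real.sqrt (n * Real.log n) :=
    mul_le_mul_of_nonneg_left e1 (by positivity)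
  linarith

/-- the event that the removed system has small value -/
def BB (p : ℝ) {n : ℕ} (S : Finset (Fin n)) (k : ℕ) (i : Fin n) :
    Set ((U n → ℝ) × (Fin n → ℝ)) :=
  {q | M p (insert i S) q.1 ((fun j => Real.sqrt k * q.2 j) + row q.1 i) + tt n <
      RI p (insert i S) q.1 (fun j => Real.sqrt k * q.2 j)}

theorem cont_sm {n : ℕ} (k : ℕ) :
    Continuous (fun q : (U n → ℝ) × (Fin n → ℝ) => (fun j => Real.sqrt k * q.2 j)) := by
  fun_prop

theorem cont_row {n : ℕ} (i : Fin n) : Continuous (fun g : U n → ℝ => row g i) := by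
  unfold row; fun_prop

theorem cont_dg {n : ℕ} : Continuous (fun g : U n → ℝ => dg g) := by unfold dg; fun_prop

theorem meas_BB {p : ℝ} (hp : 2 < p) {n : ℕ} (hn : 1 ≤ n) (S : Finset (Fin n)) (k : ℕ)
    (i : Fin n) : MeasurableSet (BB p S k i) := by
  unfold BB
  apply measurableSet_lt
  · exact ((cont_M hp (insert i S)).comp (continuous_fst.prodMk
      ((cont_sm k).add ((cont_row i).comp continuous_fst)))).measurable.add measurable_const
  · exact ((cont_RI hn hp (insert i S)).comp (continuous_fst.prodMk (cont_sm k))).measurable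

theorem prob_BB (hRES : T_RES) {p : ℝ} (hp : 2 < p) {n : ℕ} (hn : 1 ≤ n) (S : Finset (Fin n))
    (k : ℕ) (i : Fin n) :
    ((gam (U n)).prod (gam (Fin n))) (BB p S k i) ≤ ENNReal.ofReal (1 / (n : ℝ) ^ 8) :=
  prod_le_snd _ _ (meas_BB hp hn S k i) fun u =>
    row_conc_lo hRES hp hn S i (fun j => Real.sqrt k * u j)

/-- the three global events -/
def AA (p : ℝ) (n : ℕ) (C₁ : ℝ) : Set ((U n → ℝ) × (Fin n → ℝ)) :=
  {q | (C₁ + 1) * (n * Real.sqrt n) < M p ∅ q.1 0} ∪ {q | 2 * Real.sqrt n < nrm q.2} ∪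
    {q | 2 * Real.sqrt n < nrm (dg q.1)}

theorem prob_AA (hLAW : T_LAW) (hN : T_NRM) {p : ℝ} (hp : 2 < p) {n : ℕ} (hn : 1 ≤ n) (C₁ : ℝ)
    (h : ∫ g, M p (∅ : Finset (Fin n)) g 0 ∂(gam (U n)) ≤ C₁ * (n * Real.sqrt n)) :
    ((gam (U n)).prod (gam (Fin n))) (AA p n C₁) ≤
      ENNReal.ofReal (3 * Real.exp (-(n : ℝ) / 16)) := by
  have hn' : (0 : ℝ) < n := by exact_mod_cast hn
  have m1 : MeasurableSet {q : (U n → ℝ) × (Fin n → ℝ) |
      (C₁ + 1) * (n * Real.sqrt n) < M p ∅ q.1 0} := measurableSet_lt measurable_const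
    ((cont_M hp ∅).comp (continuous_fst.prodMk continuous_const)).measurable
  have m2 : MeasurableSet {q : (U n → ℝ) × (Fin n → ℝ) | 2 * Real.sqrt n < nrm q.2} :=
    measurableSet_lt measurable_const (cont_nrm.comp continuous_snd).measurable
  have m3 : MeasurableSet {q : (U n → ℝ) × (Fin n → ℝ) | 2 * Real.sqrt n < nrm (dg q.1)} :=
    measurableSet_lt measurable_const (cont_nrm.comp (cont_dg.comp continuous_fst)).measurable
  have p4 : Real.exp (-(n : ℝ) / 4) ≤ Real.exp (-(n : ℝ) / 16) := by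
    apply Real.exp_le_exp.2
    linarith
  have p1 := prod_le_snd (gam (U n)) (gam (Fin n)) m1 fun _ => M_tail hp hn h
  have p2 := prod_le_fst (gam (U n)) (gam (Fin n)) m2 fun _ =>
    (nrm_tail hN hn).trans (ENNReal.ofReal_le_ofReal p4)
  have p3 := prod_le_snd (gam (U n)) (gam (Fin n)) m3 fun _ =>
    (dg_tail hN hLAW hn).trans (ENNReal.ofReal_le_ofReal p4)
  have e : ENNReal.ofReal (3 * Real.exp (-(n : ℝ) / 16)) =
      ENNReal.ofReal (Real.exp (-(n : ℝ) / 16)) + ENNReal.ofReal (Real.exp (-(n : ℝ) / 16)) +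
        ENNReal.ofReal (Real.exp (-(n : ℝ) / 16)) := by
    rw [← ENNReal.ofReal_add (Real.exp_pos _).le (Real.exp_pos _).le,
      ← ENNReal.ofReal_add (by positivity) (Real.exp_pos _).le]
    congr 1
    ring
  rw [e]
  unfold AA
  exact (measure_union_le _ _).trans (add_le_add ((measure_union_le _ _).trans
    (add_le_add p1 p2)) p3)

end

end Pool.Agent.N573.LPG
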