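import Pool.Agent.N573.LPG.P1c

set_option autoImplicit false

open MeasureTheory ProbabilityTheory Filter Topology

namespace Pool.Agent.N573.LPG

open Pool.Agent.H320R2.LD

noncomputable section

/-- the event of a large response -/
def RB (p : ℝ) {n : ℕ} (C₂ : ℝ) (S : Finset (Fin n)) (k : ℕ) : Set ((U n → ℝ) × (Fin n → ℝ)) :=
  {q | C₂ * Real.sqrt (n * Real.log n) < Rr p S q.1 (fun j => Real.sqrt k * q.2 j)}

theorem mem_RB {p : ℝ} {n : ℕ} {C₂ : ℝ} {S : Finset (Fin n)} {k : ℕ} (g : U n → ℝ)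
    (u : Fin n → ℝ) : (g, u) ∈ RB p C₂ S k ↔
      C₂ * Real.sqrt (n * Real.log n) < Rr p S g (fun j => Real.sqrt k * u j) := Iff.rfl

theorem mem_BB {p : ℝ} {n : ℕ} {S : Finset (Fin n)} {k : ℕ} {i : Fin n} (g : U n → ℝ)
    (u : Fin n → ℝ) : (g, u) ∈ BB p S k i ↔
      M p (insert i S) g ((fun j => Real.sqrt k * u j) + row g i) + tt n <
      RI p (insert i S) g (fun j => Real.sqrt k * u j) := Iff.rfl

theorem mem_AA {p : ℝ} {n : ℕ} {C₁ : ℝ} (g : U n → ℝ) (u : Fin n → ℝ) : (g, u) ∈ AA p n C₁ ↔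
    ((C₁ + 1) * (n * Real.sqrt n) < M p ∅ g 0 ∨ 2 * Real.sqrt n < nrm u) ∨
      2 * Real.sqrt n < nrm (dg g) := Iff.rfl

theorem meas_RB {p : ℝ} (hp : 2 < p) {n : ℕ} (hn : 1 ≤ n) (C₂ : ℝ) (S : Finset (Fin n)) (k : ℕ) :
    MeasurableSet (RB p C₂ S k) := by
  unfold RB
  exact measurableSet_lt measurable_const
    ((cont_Rr hn hp S).comp (continuous_fst.prodMk (cont_sm k))).measurable

theorem RB_sub (hREM : T_REM) (hINS : T_INS) (hN : T_NRM) {p : ℝ} (hp : 2 < p) {n : ℕ}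
    (hn3 : 3 ≤ n) (S : Finset (Fin n)) (hS : S.card ≤ 1) (k : ℕ) (hk : k ≤ 5 * n) (C₁ : ℝ)
    (hC₁ : 0 < C₁) : RB p (2 * (6 * (C₁ + 1) + 160) + 12) S k ⊆
      AA p n C₁ ∪ ⋃ i ∈ (Finset.univ : Finset (Fin n)), BB p S k i := by
  intro q hq
  obtain ⟨g, u⟩ := q
  rw [mem_RB] at hq
  by_contra hcon
  rw [Set.mem_union, not_or, mem_AA, not_or, not_or, not_lt, not_lt, not_lt] at hcon
  obtain ⟨⟨⟨c1, c2⟩, c3⟩, h2⟩ := hcon
  have c4 : ∀ i : Fin n, RI p (insert i S) g (fun j => Real.sqrt k * u j) ≤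
      M p (insert i S) g ((fun j => Real.sqrt k * u j) + row g i) + tt n := by
    intro i
    have h3 : (g, u) ∉ BB p S k i := fun hi => h2 (Set.mem_biUnion (Finset.mem_univ i) hi)
    rw [mem_BB, not_lt] at h3
    exact h3
  rw [← not_le] at hq
  exact hq (resp_good hREM hINS hN hp hn3 S hS k hk C₁ hC₁ g u c1 c2 c3 c4)

theorem P1 (hRES : T_RES) (hLAW : T_LAW) (hREM : T_REM) (hINS : T_INS) (hN : T_NRM)
    (hEUP : T_EUP) {p : ℝ} (hp : 2 < p) : ∃ C₂ : ℝ, 0 < C₂ ∧ ∀ᶠ n : ℕ in atTop,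
    ∀ S : Finset (Fin n), S.card ≤ 1 → ∀ k : ℕ, k ≤ 5 * n →
      ((gam (U n)).prod (gam (Fin n))) (RB p C₂ S k) ≤ ENNReal.ofReal (1 / (n : ℝ) ^ 6) := by
  obtain ⟨C₁, hC₁, hmean⟩ := mean_M hEUP
  refine ⟨2 * (6 * (C₁ + 1) + 160) + 12, by positivity, ?_⟩
  filter_upwards [ev_small, eventually_ge_atTop 3] with n hsm hn3
  intro S hS k hk
  have hn1 : 1 ≤ n := by omega
  have hn' : (0 : ℝ) < n := by exact_mod_cast hn1
  have hA := prob_AA hLAW hN hp hn1 C₁ (hmean p hp n hn1)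
  have hB : ∑ i : Fin n, ((gam (U n)).prod (gam (Fin n))) (BB p S k i) ≤
      ENNReal.ofReal (1 / (n : ℝ) ^ 7) := by
    calc ∑ i : Fin n, ((gam (U n)).prod (gam (Fin n))) (BB p S k i)
        ≤ ∑ _i : Fin n, ENNReal.ofReal (1 / (n : ℝ) ^ 8) :=
          Finset.sum_le_sum fun i _ => prob_BB hRES hp hn1 S k i
      _ = ENNReal.ofReal (1 / (n : ℝ) ^ 7) := by
          rw [Finset.sum_const, Finset.card_univ, Fintype.card_fin, nsmul_eq_mul,
            ← ENNReal.ofReal_natCast, ← ENNReal.ofReal_mul hn'.le]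
          congr 1
          field_simp
  have h1 := measure_mono (μ := (gam (U n)).prod (gam (Fin n)))
    (RB_sub hREM hINS hN hp hn3 S hS k hk C₁ hC₁)
  have h2 := measure_union_le (μ := (gam (U n)).prod (gam (Fin n))) (AA p n C₁)
    (⋃ i ∈ (Finset.univ : Finset (Fin n)), BB p S k i)
  have h3 := measure_biUnion_finset_le (μ := (gam (U n)).prod (gam (Fin n)))
    (Finset.univ : Finset (Fin n)) (fun i => BB p S k i)
  have h4 : ENNReal.ofReal (3 * Real.exp (-(n : ℝ) / 16)) + ENNReal.ofReal (1 / (n : ℝ) ^ 7) ≤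
      ENNReal.ofReal (1 / (n : ℝ) ^ 6) := by
    rw [← ENNReal.ofReal_add (by positivity) (by positivity)]
    exact ENNReal.ofReal_le_ofReal hsm
  exact h1.trans (h2.trans ((add_le_add hA (h3.trans hB)).trans h4))

/-! ### telescoping -/

theorem cont_Mv {p : ℝ} (hp : 2 < p) {n : ℕ} (S : Finset (Fin n)) (g : U n → ℝ) :
    Continuous (fun v : Fin n → ℝ => M p S g v) := by
  have h : Continuous (fun v : Fin n → ℝ => ((g, v) : (U n → ℝ) × (Fin n → ℝ))) :=
    Continuous.prodMk_right g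
  have h2 := (cont_M hp S).comp h
  exact h2

theorem cont_RrV {p : ℝ} (hp : 2 < p) {n : ℕ} (hn : 1 ≤ n) (S : Finset (Fin n)) (g : U n → ℝ)
    {c : (Fin n → ℝ) → (Fin n → ℝ)} (hc : Continuous c) :
    Continuous (fun u : Fin n → ℝ => Rr p S g (c u)) := by
  have h : Continuous (fun v : Fin n → ℝ => ((g, c v) : (U n → ℝ) × (Fin n → ℝ))) :=
    continuous_const.prodMk hc
  have h2 := (cont_Rr hn hp S).comp h
  exact h2

/-- the mean value with a field of variance `k` -/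
def ak (p : ℝ) {n : ℕ} (S : Finset (Fin n)) (g : U n → ℝ) (k : ℕ) : ℝ :=
  ∫ w, M p S g (fun j => Real.sqrt k * w j) ∂(gam (Fin n))

theorem lip_scale {p : ℝ} (hp : 2 < p) {n : ℕ} (S : Finset (Fin n)) (g : U n → ℝ) (c : ℝ)
    (hc : 0 ≤ c) : Lip (c * (2 * Real.sqrt n)) (fun w : Fin n → ℝ => M p S g (fun j => c * w j)) := by
  intro w w'
  have := t_LIP p hp n S g g (fun j => c * w j) (fun j => c * w' j)
  rw [sub_self, nrm_zero, mul_zero, zero_add] at this
  have e : ((fun j => c * w j) - (fun j => c * w' j)) = fun j => c * (w - w') j := by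
    funext j
    simp only [Pi.sub_apply]
    ring
  rw [e, nrm_smul, abs_of_nonneg hc] at this
  calc |M p S g (fun j => c * w j) - M p S g (fun j => c * w' j)|
      ≤ 2 * Real.sqrt n * (c * nrm (w - w')) := this
    _ = c * (2 * Real.sqrt n) * nrm (w - w') := by ring

theorem ak_zero {p : ℝ} {n : ℕ} (S : Finset (Fin n)) (g : U n → ℝ) :
    ak p S g 0 = M p S g 0 := by
  unfold ak
  have : ∀ w : Fin n → ℝ, M p S g (fun j => Real.sqrt ((0 : ℕ) : ℝ) * w j) = M p S g 0 := by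
    intro w
    congr 1
    funext j
    simp
  simp only [this]
  simp

theorem ak_succ (hADD : T_ADD) (hN : T_NRM) {p : ℝ} (hp : 2 < p) {n : ℕ} (hn : 1 ≤ n)
    (S : Finset (Fin n)) (g : U n → ℝ) (k : ℕ) :
    ak p S g (k + 1) - ak p S g k =
      ∫ u, Rr p S g (fun j => Real.sqrt k * u j) ∂(gam (Fin n)) := by
  have hn' : (0 : ℝ) < n := by exact_mod_cast hn
  have hMc := cont_Mv hp S g
  have h1 : ak p S g (k + 1) =
      ∫ q, M p S g (fun j => Real.sqrt k * q.1 j + q.2 j) ∂((gam (Fin n)).prod (gam (Fin n))) := by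
    unfold ak
    have e1 : ∫ w, M p S g (fun j => Real.sqrt ((k + 1 : ℕ) : ℝ) * w j) ∂(gam (Fin n)) =
        ∫ v, M p S g v ∂(Measure.map (fun w : Fin n → ℝ => fun j => Real.sqrt (k + 1 : ℕ) * w j)
          (gam (Fin n))) := by
      have hcc : Continuous (fun w : Fin n → ℝ => fun j => Real.sqrt (k + 1 : ℕ) * w j) :=
        continuous_pi fun j => continuous_const.mul (continuous_apply j)
      rw [integral_map hcc.measurable.aemeasurable hMc.aestronglyMeasurable]
    have hcc2 : Continuous (fun q : (Fin n → ℝ) × (Fin n → ℝ) =>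
        fun j => Real.sqrt k * q.1 j + q.2 j) :=
      continuous_pi fun j => (continuous_const.mul ((continuous_apply j).comp continuous_fst)).add
        ((continuous_apply j).comp continuous_snd)
    rw [e1, ← hADD (Fin n) k, integral_map hcc2.measurable.aemeasurable hMc.aestronglyMeasurable]
  have hint : Integrable (fun q : (Fin n → ℝ) × (Fin n → ℝ) =>
      M p S g (fun j => Real.sqrt k * q.1 j + q.2 j)) ((gam (Fin n)).prod (gam (Fin n))) := by
    have hc : Continuous (fun q : (Fin n → ℝ) × (Fin n → ℝ) =>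
      M p S g (fun j => Real.sqrt k * q.1 j + q.2 j)) := hMc.comp
        (continuous_pi fun j => (continuous_const.mul ((continuous_apply j).comp continuous_fst)).add
          ((continuous_apply j).comp continuous_snd))
    have hb : Integrable (fun q : (Fin n → ℝ) × (Fin n → ℝ) =>
        |M p S g 0| + 2 * Real.sqrt n * (Real.sqrt k * nrm q.1 + nrm q.2))
        ((gam (Fin n)).prod (gam (Fin n))) := by
      have i1 : Integrable (fun q : (Fin n → ℝ) × (Fin n → ℝ) => nrm q.1)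
          ((gam (Fin n)).prod (gam (Fin n))) := (hN (Fin n)).1.comp_fst _
      have i2 : Integrable (fun q : (Fin n → ℝ) × (Fin n → ℝ) => nrm q.2)
          ((gam (Fin n)).prod (gam (Fin n))) := (hN (Fin n)).1.comp_snd _
      exact (integrable_const _).add (((i1.const_mul _).add i2).const_mul _)
    refine hb.mono' hc.aestronglyMeasurable (Filter.Eventually.of_forall fun q => ?_)
    rw [Real.norm_eq_abs]
    have h2 := t_LIP p hp n S g g (fun j => Real.sqrt k * q.1 j + q.2 j) 0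
    rw [sub_self, nrm_zero, mul_zero, zero_add, sub_zero] at h2
    have h3 : nrm (fun j => Real.sqrt k * q.1 j + q.2 j) ≤ Real.sqrt k * nrm q.1 + nrm q.2 := by
      have := nrm_add_le (fun j => Real.sqrt k * q.1 j) q.2
      rw [nrm_smul, abs_of_nonneg (Real.sqrt_nonneg _)] at this
      exact this
    have h4 : |M p S g (fun j => Real.sqrt k * q.1 j + q.2 j)| ≤ |M p S g 0| +
        |M p S g (fun j => Real.sqrt k * q.1 j + q.2 j) - M p S g 0| := by
      have := abs_add_le (M p S g 0) (M p S g (fun j => Real.sqrt k * q.1 j + q.2 j) - M p S g 0)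
      rwa [add_sub_cancel] at this
    have h5 : 2 * Real.sqrt n * nrm (fun j => Real.sqrt k * q.1 j + q.2 j) ≤
        2 * Real.sqrt n * (Real.sqrt k * nrm q.1 + nrm q.2) :=
      mul_le_mul_of_nonneg_left h3 (by positivity)
    linarith
  rw [h1, integral_prod _ hint]
  unfold ak
  have hi1 : Integrable (fun u : Fin n → ℝ =>
      ∫ w, M p S g (fun j => Real.sqrt k * u j + w j) ∂(gam (Fin n))) (gam (Fin n)) :=
    hint.integral_prod_left
  have hi2 : Integrable (fun u : Fin n → ℝ => M p S g (fun j => Real.sqrt k * u j))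
      (gam (Fin n)) := by
    have hL := lip_scale hp S g (Real.sqrt k) (Real.sqrt_nonneg _)
    have hL' : Lip (Real.sqrt k * (2 * Real.sqrt n) + 1)
        (fun w : Fin n → ℝ => M p S g (fun j => Real.sqrt k * w j)) := by
      intro w w'
      refine (hL w w').trans (mul_le_mul_of_nonneg_right (by linarith) (nrm_nn _))
    exact lip_int (by positivity) hL'
  rw [← integral_sub hi1 hi2]
  refine integral_congr_ae (Filter.Eventually.of_forall fun u => ?_)
  show (∫ w, M p S g (fun j => Real.sqrt k * u j + w j) ∂(gam (Fin n))) -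
    M p S g (fun j => Real.sqrt k * u j) = Rr p S g (fun j => Real.sqrt k * u j)
  have e : ∀ w : Fin n → ℝ, (fun j => Real.sqrt k * u j + w j) =
      (fun j => Real.sqrt k * u j) + w := by
    intro w; funext j; rw [Pi.add_apply]
  unfold Rr RI
  simp only [e]

/-- the sections of the bad event -/
def GB (p : ℝ) {n : ℕ} (C₂ : ℝ) (S : Finset (Fin n)) (k : ℕ) : Set (U n → ℝ) :=
  {g | ENNReal.ofReal (1 / (n : ℝ) ^ 3) ≤ gam (Fin n) (Prod.mk g ⁻¹' (RB p C₂ S k))}

theorem mem_GB {p : ℝ} {n : ℕ} {C₂ : ℝ} {S : Finset (Fin n)} {k : ℕ} (g : U n → ℝ) :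
    g ∈ GB p C₂ S k ↔ ENNReal.ofReal (1 / (n : ℝ) ^ 3) ≤
      gam (Fin n) (Prod.mk g ⁻¹' (RB p C₂ S k)) := Iff.rfl

theorem prob_GB {p : ℝ} (hp : 2 < p) {n : ℕ} (hn : 1 ≤ n) (C₂ : ℝ) (S : Finset (Fin n)) (k : ℕ)
    (h : ((gam (U n)).prod (gam (Fin n))) (RB p C₂ S k) ≤ ENNReal.ofReal (1 / (n : ℝ) ^ 6)) :
    gam (U n) (GB p C₂ S k) ≤ ENNReal.ofReal (1 / (n : ℝ) ^ 3) := by
  have hn' : (0 : ℝ) < n := by exact_mod_cast hn
  have hm := meas_RB hp hn C₂ S k
  rw [Measure.prod_apply hm] at h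
  have hmf : Measurable (fun g : U n → ℝ => gam (Fin n) (Prod.mk g ⁻¹' (RB p C₂ S k))) :=
    measurable_measure_prodMk_left hm
  have h1 := mul_meas_ge_le_lintegral (μ := gam (U n)) hmf (ENNReal.ofReal (1 / (n : ℝ) ^ 3))
  have h2 := h1.trans h
  have e : ENNReal.ofReal (1 / (n : ℝ) ^ 6) =
      ENNReal.ofReal (1 / (n : ℝ) ^ 3) * ENNReal.ofReal (1 / (n : ℝ) ^ 3) := by
    rw [← ENNReal.ofReal_mul (by positivity)]
    congr 1
    field_simp
  rw [e] at h2
  have hpos : ENNReal.ofReal (1 / (n : ℝ) ^ 3) ≠ 0 := by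
    rw [Ne, ENNReal.ofReal_eq_zero, not_le]
    positivity
  exact (ENNReal.mul_le_mul_iff_right hpos ENNReal.ofReal_ne_top).1 h2

end

end Pool.Agent.N573.LPG
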