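import Pool.Agent.N573.LPG.P2

set_option autoImplicit false

open MeasureTheory ProbabilityTheory Filter Topology

namespace Pool.Agent.N573.LPG

open Pool.Agent.H320R2.LD

noncomputable section

theorem final_det (hFIN : T_FIN) (hADD : T_ADD) (hN : T_NRM) {p : ℝ} (hp : 2 < p) {n : ℕ}
    (hn3 : 3 ≤ n) {C₂ c : ℝ} (hC₂ : 0 < C₂) (hc : 0 < c) (g : U n → ℝ) (y : Fin n → ℝ)
    (hy : y ∈ Kp p (∅ : Finset (Fin n)))
    (hmax : ∀ y' ∈ Kp p (∅ : Finset (Fin n)), Hf g y' ≤ Hf g y) (i : Fin n)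
    (ha : ∀ l < 5 * n, g ∉ GB p C₂ {i} l)
    (hb : ∀ k : ℕ, 1 ≤ k → k ≤ 5 * n → M p {i} g (fun j => Real.sqrt k * row g i j) ≤
      ak p {i} g k + Real.sqrt k * tt n)
    (hcc : c / 2 * (n * Real.sqrt n) ≤ M p ∅ g 0) (hd : nrm (dg g) ≤ 2 * Real.sqrt n) :
    |y i| ≤ max 1 ((p / c * (5 * C₂ + 76)) ^ (1 / (p - 2))) *
      (Real.log n) ^ (1 / (2 * (p - 2))) := by
  have hn1 : 1 ≤ n := by omega
  have hn' : (3 : ℝ) ≤ n := by exact_mod_cast hn3
  have hlog : 1 ≤ Real.log n := by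
    rw [Real.le_log_iff_exp_le (by linarith)]
    have := Real.exp_one_lt_d9
    linarith
  have hp2 : 0 < p - 2 := by linarith
  have hlogC : 1 ≤ (Real.log n) ^ (1 / (2 * (p - 2))) :=
    Real.one_le_rpow hlog (by positivity)
  by_cases h1 : |y i| ≤ 1
  · calc |y i| ≤ 1 * 1 := by linarith
      _ ≤ _ := mul_le_mul (le_max_left _ _) hlogC zero_le_one (by positivity)
  push Not at h1
  set a := |y i| with ha_def
  have ha0 : 0 < a := by linarith
  have hasq : a ^ 2 ≤ n := by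
    have h2 := t_SQ p hp n ∅ y hy
    have h3 : y i ^ 2 ≤ ∑ i, y i ^ 2 :=
      Finset.single_le_sum (f := fun i => y i ^ 2) (fun _ _ => sq_nonneg _) (Finset.mem_univ i)
    rw [ha_def, sq_abs]
    linarith
  set k := ⌈4 * a ^ 2⌉₊ with hk_def
  have hk1 : 4 * a ^ 2 ≤ k := Nat.le_ceil _
  have hk2 : (k : ℝ) < 4 * a ^ 2 + 1 := Nat.ceil_lt_add_one (by positivity)
  have ha2 : 1 < a ^ 2 := by nlinarith
  have hk5 : (k : ℝ) ≤ 5 * a ^ 2 := by linarith
  have hkn : k ≤ 5 * n := by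
    have : (k : ℝ) ≤ 5 * n := by linarith
    exact_mod_cast this
  have hk0 : 1 ≤ k := by
    have : (1 : ℝ) ≤ k := by linarith
    exact_mod_cast this
  have hkR : (1 : ℝ) ≤ k := by exact_mod_cast hk0
  set X := Real.sqrt (n * Real.log n) with hX
  have hXe : X = Real.sqrt n * Real.sqrt (Real.log n) := by
    rw [hX, Real.sqrt_mul (by linarith)]
  have hX1 : 1 ≤ X := by
    rw [hX]; apply Real.one_le_sqrt.2; nlinarith
  have htt : tt n ≤ 12 * X := by
    unfold tt
    rw [Real.sqrt_mul (by norm_num)]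
    apply mul_le_mul_of_nonneg_right _ (Real.sqrt_nonneg _)
    rw [Real.sqrt_le_left (by norm_num)]
    norm_num
  have hsk : Real.sqrt k ≤ k := by
    rw [Real.sqrt_le_left (by linarith)]
    nlinarith
  set L := (k : ℝ) * (C₂ * X + 2) + Real.sqrt k * tt n with hL
  have hLb : L ≤ 5 * a ^ 2 * ((C₂ + 14) * X) := by
    have e1 : Real.sqrt k * tt n ≤ k * (12 * X) :=
      mul_le_mul hsk htt (tt_nonneg n) (by linarith)
    have e2 : L ≤ k * ((C₂ + 14) * X) := by
      have e3 : (k : ℝ) * (C₂ * X + 2) ≤ k * (C₂ * X + 2 * X) :=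
        mul_le_mul_of_nonneg_left (by linarith) (by linarith)
      calc L ≤ k * (C₂ * X + 2 * X) + k * (12 * X) := by rw [hL]; linarith
        _ = k * ((C₂ + 14) * X) := by ring
    exact e2.trans (mul_le_mul_of_nonneg_right hk5 (by positivity))
  have hresp : M p {i} g (fun j => Real.sqrt k * row g i j) ≤ M p {i} g 0 + L := by
    have e1 := hb k hk0 hkn
    have e2 := ak_bound hADD hN hp hn1 C₂ hC₂ {i} g k (fun l hl => ha l (by omega))
    rw [hL]
    linarith
  have hD : |Wm g i i| ≤ 3 * Real.sqrt n := by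
    unfold Wm
    rw [if_pos rfl, abs_mul, abs_of_nonneg (Real.sqrt_nonneg _)]
    have e1 : |g (pr i i)| ≤ nrm (dg g) := by
      unfold nrm nsq
      apply Real.abs_le_sqrt
      exact Finset.single_le_sum (f := fun i => dg g i ^ 2) (fun _ _ => sq_nonneg _)
        (Finset.mem_univ i)
    have r2 : Real.sqrt 2 ≤ 3 / 2 := by
      rw [Real.sqrt_le_left (by norm_num)]; norm_num
    calc Real.sqrt 2 * |g (pr i i)| ≤ 3 / 2 * (2 * Real.sqrt n) :=
          mul_le_mul r2 (e1.trans hd) (abs_nonneg _) (by norm_num)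
      _ = 3 * Real.sqrt n := by ring
  have hfin := hFIN p hp n hn1 g y hy hmax i k L (3 * Real.sqrt n)
    (by rw [mul_pow, ← ha_def]; linarith) hD hresp
  rw [← ha_def] at hfin
  have hsn : 0 < Real.sqrt n := Real.sqrt_pos.2 (by linarith)
  have hap : 0 < a ^ p := Real.rpow_pos_of_pos ha0 _
  have hlow : c / p * a ^ p * Real.sqrt n ≤ 2 / p * (a ^ p / n) * M p ∅ g 0 := by
    have e1 : 2 / p * (a ^ p / n) * (c / 2 * (n * Real.sqrt n)) ≤
        2 / p * (a ^ p / n) * M p ∅ g 0 := mul_le_mul_of_nonneg_left hcc (by positivity)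
    have e2 : 2 / p * (a ^ p / n) * (c / 2 * (n * Real.sqrt n)) = c / p * a ^ p * Real.sqrt n := by
      field_simp
    rw [e2] at e1
    exact e1
  have hsX : Real.sqrt n ≤ X := by
    rw [hX]; apply Real.sqrt_le_sqrt; nlinarith
  have hup : L + 2 * (3 * Real.sqrt n) * a ^ 2 ≤ a ^ 2 * ((5 * C₂ + 76) * X) := by
    have e1 : 2 * (3 * Real.sqrt n) * a ^ 2 ≤ 2 * (3 * X) * a ^ 2 := by
      apply mul_le_mul_of_nonneg_right _ (sq_nonneg _)
      linarith
    calc L + 2 * (3 * Real.sqrt n) * a ^ 2 ≤ 5 * a ^ 2 * ((C₂ + 14) * X) + 2 * (3 * X) * a ^ 2 := by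
          linarith
      _ = a ^ 2 * ((5 * C₂ + 76) * X) := by ring
  have hmain : c / p * a ^ p ≤ a ^ 2 * ((5 * C₂ + 76) * Real.sqrt (Real.log n)) := by
    have e1 : c / p * a ^ p * Real.sqrt n ≤
        a ^ 2 * ((5 * C₂ + 76) * Real.sqrt (Real.log n)) * Real.sqrt n := by
      calc c / p * a ^ p * Real.sqrt n ≤ a ^ 2 * ((5 * C₂ + 76) * X) :=
            hlow.trans (hfin.trans hup)
        _ = _ := by rw [hXe]; ring
    exact le_of_mul_le_mul_right e1 hsn
  have hsplit : a ^ p = a ^ 2 * a ^ (p - 2) := by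
    rw [← Real.rpow_natCast a 2, ← Real.rpow_add ha0]
    congr 1
    push_cast
    ring
  have hpw : a ^ (p - 2) ≤ p / c * (5 * C₂ + 76) * Real.sqrt (Real.log n) := by
    rw [hsplit] at hmain
    have e1 : a ^ 2 * (c / p * a ^ (p - 2)) ≤
        a ^ 2 * ((5 * C₂ + 76) * Real.sqrt (Real.log n)) := by
      calc a ^ 2 * (c / p * a ^ (p - 2)) = c / p * (a ^ 2 * a ^ (p - 2)) := by ring
        _ ≤ _ := hmain
    have e2 := le_of_mul_le_mul_left e1 (by positivity)
    have hpp : 0 < p := by linarith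
    calc a ^ (p - 2) = p / c * (c / p * a ^ (p - 2)) := by field_simp
      _ ≤ p / c * ((5 * C₂ + 76) * Real.sqrt (Real.log n)) :=
          mul_le_mul_of_nonneg_left e2 (by positivity)
      _ = _ := by ring
  have hpp : 0 < p := by linarith
  have h0 : 0 ≤ p / c * (5 * C₂ + 76) := by positivity
  have e1 : a = (a ^ (p - 2)) ^ (1 / (p - 2)) := by
    rw [← Real.rpow_mul ha0.le, mul_one_div_cancel hp2.ne', Real.rpow_one]
  have e2 : a ≤ (p / c * (5 * C₂ + 76) * Real.sqrt (Real.log n)) ^ (1 / (p - 2)) := by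
    rw [e1]
    exact Real.rpow_le_rpow (Real.rpow_nonneg ha0.le _) hpw (by positivity)
  rw [Real.mul_rpow h0 (Real.sqrt_nonneg _), Real.sqrt_eq_rpow, ← Real.rpow_mul (by linarith)] at e2
  have e3 : (1 : ℝ) / 2 * (1 / (p - 2)) = 1 / (2 * (p - 2)) := by
    field_simp
  rw [e3] at e2
  exact e2.trans (mul_le_mul_of_nonneg_right (le_max_right _ _) (by positivity))

end

end Pool.Agent.N573.LPG
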