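import Pool.Agent.N573.LPG.P3

set_option autoImplicit false

open MeasureTheory ProbabilityTheory Filter Topology

namespace Pool.Agent.N573.LPG

open Pool.Agent.H320R2.LD

noncomputable section

/-- the event that the row has a large effect -/
def RU (p : ℝ) {n : ℕ} (i : Fin n) (k : ℕ) : Set (U n → ℝ) :=
  {g | ak p {i} g k + Real.sqrt k * tt n < M p {i} g (fun j => Real.sqrt k * row g i j)}

theorem mem_RU {p : ℝ} {n : ℕ} {i : Fin n} {k : ℕ} (g : U n → ℝ) : g ∈ RU p i k ↔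
    ak p {i} g k + Real.sqrt k * tt n < M p {i} g (fun j => Real.sqrt k * row g i j) := Iff.rfl

theorem lip_ak {p : ℝ} (hp : 2 < p) {n : ℕ} (hn : 1 ≤ n) (S : Finset (Fin n)) (k : ℕ)
    (hk : 1 ≤ k) : Lip (2 * n) (fun g : U n → ℝ => ak p S g k) := by
  intro g g'
  have hn' : (0 : ℝ) < n := by exact_mod_cast hn
  have hk' : (0 : ℝ) < k := by exact_mod_cast hk
  have hi : ∀ g : U n → ℝ, Integrable (fun w : Fin n → ℝ => M p S g (fun j => Real.sqrt k * w j))
      (gam (Fin n)) := fun g =>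
    lip_int (L := Real.sqrt k * (2 * Real.sqrt n)) (by positivity)
      (lip_scale hp S g (Real.sqrt k) (Real.sqrt_nonneg _))
  have h1 : ak p S g k - ak p S g' k = ∫ w, (M p S g (fun j => Real.sqrt k * w j) -
      M p S g' (fun j => Real.sqrt k * w j)) ∂(gam (Fin n)) := by
    rw [integral_sub (hi g) (hi g')]
    rfl
  have h2 : ∀ w : Fin n → ℝ, ‖M p S g (fun j => Real.sqrt k * w j) -
      M p S g' (fun j => Real.sqrt k * w j)‖ ≤ 2 * n * nrm (g - g') := by
    intro w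
    have := lip_M_g hp S (fun j => Real.sqrt k * w j) g g'
    rwa [Real.norm_eq_abs]
  have h3 := norm_integral_le_of_norm_le_const (μ := gam (Fin n)) (Filter.Eventually.of_forall h2)
  rw [← h1, Real.norm_eq_abs] at h3
  simpa using h3

theorem cont_of_lip1 {V : Type} [Fintype V] {f : (V → ℝ) → ℝ} {L : ℝ} (h : Lip L f) :
    Continuous f := by
  rw [continuous_iff_continuousAt]
  intro q
  rw [ContinuousAt, tendsto_iff_dist_tendsto_zero]
  have hc : Continuous (fun q' : V → ℝ => L * nrm (q' - q)) :=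
    continuous_const.mul (cont_nrm.comp (continuous_id.sub continuous_const))
  have h0 : Tendsto (fun q' : V → ℝ => L * nrm (q' - q)) (𝓝 q) (𝓝 0) := by
    have := hc.tendsto q
    simpa [nrm_zero] using this
  refine squeeze_zero (fun _ => dist_nonneg) (fun q' => ?_) h0
  rw [Real.dist_eq]
  exact h q' q

theorem prob_RU (hRES : T_RES) {p : ℝ} (hp : 2 < p) {n : ℕ} (hn : 1 ≤ n) (i : Fin n) (k : ℕ)
    (hk : 1 ≤ k) : gam (U n) (RU p i k) ≤ ENNReal.ofReal (1 / (n : ℝ) ^ 8) := by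
  have hn' : (0 : ℝ) < n := by exact_mod_cast hn
  have hk' : (1 : ℝ) ≤ k := by exact_mod_cast hk
  have hi : i ∈ ({i} : Finset (Fin n)) := Finset.mem_singleton_self i
  have hcont1 : Continuous (fun q : (U n → ℝ) × (Fin n → ℝ) => ak p {i} q.1 k) := by
    have := (cont_of_lip1 (lip_ak hp hn {i} k hk)).comp
      (continuous_fst : Continuous (Prod.fst : (U n → ℝ) × (Fin n → ℝ) → (U n → ℝ)))
    exact this
  have hcont2 : Continuous (fun q : (U n → ℝ) × (Fin n → ℝ) =>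
      M p {i} q.1 (fun j => Real.sqrt k * q.2 j)) := by
    have h : Continuous (fun q : (U n → ℝ) × (Fin n → ℝ) =>
        ((q.1, fun j => Real.sqrt k * q.2 j) : (U n → ℝ) × (Fin n → ℝ))) :=
      continuous_fst.prodMk (cont_sm k)
    have h2 := (cont_M hp {i}).comp h
    exact h2
  have hEm : MeasurableSet {q : (U n → ℝ) × (Fin n → ℝ) | ak p {i} q.1 k + Real.sqrt k * tt n <
      M p {i} q.1 (fun j => Real.sqrt k * q.2 j)} :=
    measurableSet_lt (hcont1.add continuous_const).measurable hcont2.measurable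
  have key := row_event hRES i hEm (c := ENNReal.ofReal (1 / (n : ℝ) ^ 8)) ?_ ?_
  · exact key
  · intro g g' hgg w
    simp only [Set.mem_ofPred_eq]
    have e1 : ak p {i} g k = ak p {i} g' k := by
      unfold ak
      simp only [M_dep hi hgg]
    rw [M_dep hi hgg, e1]
  · intro g
    have h1 := conc_up (V := Fin n) (f := fun w => M p {i} g (fun j => Real.sqrt k * w j))
      (L := Real.sqrt k * (2 * Real.sqrt n)) (by positivity)
      (lip_scale hp {i} g (Real.sqrt k) (Real.sqrt_nonneg _))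
      (mul_nonneg (Real.sqrt_nonneg k) (tt_nonneg n))
    rw [tt_exp hn (Real.sqrt k) (Real.one_le_sqrt.2 hk')] at h1
    refine (measure_mono ?_).trans h1
    intro w hw
    simp only [Set.mem_ofPred_eq] at hw ⊢
    exact le_of_lt hw

theorem mean_low (hELO : T_ELO) : ∃ c : ℝ, 0 < c ∧ ∃ n₀ : ℕ, ∀ p : ℝ, 2 < p → ∀ n : ℕ, n₀ ≤ n →
    1 ≤ n → c * (n * Real.sqrt n) ≤ ∫ g, M p (∅ : Finset (Fin n)) g 0 ∂(gam (U n)) := by
  obtain ⟨c, hc, n₀, h⟩ := hELO
  refine ⟨c, hc, n₀, fun p hp n hn hn1 => ?_⟩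
  have hn' : (0 : ℝ) < n := by exact_mod_cast hn1
  refine h n hn _ (lip_int (L := 2 * n) (by positivity) (lip_M_g hp ∅ 0)) ?_
  intro g y hy
  have h1 : y ∈ Kp p (∅ : Finset (Fin n)) := by
    refine ⟨?_, fun j hj => absurd hj (Finset.notMem_empty j)⟩
    have : ∀ i : Fin n, |y i| ^ p = 1 := fun i => by rw [hy i, Real.one_rpow]
    rw [Finset.sum_congr rfl fun i _ => this i]
    simp
  have h2 := le_M hp ∅ g 0 y h1
  have h3 : dt (0 : Fin n → ℝ) y = 0 := by unfold dt; simp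
  rw [h3, mul_zero, add_zero] at h2
  exact h2

theorem M_low {c p : ℝ} (hc : 0 < c) (hp : 2 < p) {n : ℕ} (hn : 1 ≤ n)
    (h : c * (n * Real.sqrt n) ≤ ∫ g, M p (∅ : Finset (Fin n)) g 0 ∂(gam (U n))) :
    gam (U n) {g | M p ∅ g 0 < c / 2 * (n * Real.sqrt n)} ≤
      ENNReal.ofReal (Real.exp (-(c ^ 2 / 64 * n))) := by
  have hn' : (0 : ℝ) < n := by exact_mod_cast hn
  have h1 := conc_lo (V := U n) (f := fun g => M p ∅ g 0) (L := 2 * n) (by positivity)
    (lip_M_g hp ∅ 0) (u := c / 2 * (n * Real.sqrt n)) (by positivity)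
  have e2 : Real.sqrt (n : ℝ) ^ 2 = n := Real.sq_sqrt (Nat.cast_nonneg n)
  have e3 : -(c / 2 * (n * Real.sqrt n)) ^ 2 / (4 * (2 * (n : ℝ)) ^ 2) = -(c ^ 2 / 64 * n) := by
    rw [mul_pow, mul_pow, e2]
    field_simp
    norm_num
  rw [e3] at h1
  refine (measure_mono ?_).trans h1
  intro g hg
  simp only [Set.mem_ofPred_eq] at hg ⊢
  linarith

/-- the bad event -/
def bad (p C₂ c : ℝ) (n : ℕ) : Set (U n → ℝ) :=
  (⋃ i ∈ (Finset.univ : Finset (Fin n)), ⋃ l ∈ Finset.range (5 * n), GB p C₂ {i} l) ∪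
  (⋃ i ∈ (Finset.univ : Finset (Fin n)), ⋃ k ∈ Finset.Icc 1 (5 * n), RU p i k) ∪
  {g | M p ∅ g 0 < c / 2 * (n * Real.sqrt n)} ∪ {g | 2 * Real.sqrt n < nrm (dg g)}

theorem bad_incl (hFIN : T_FIN) (hADD : T_ADD) (hN : T_NRM) {p : ℝ} (hp : 2 < p) {n : ℕ}
    (hn3 : 3 ≤ n) {C₂ c : ℝ} (hC₂ : 0 < C₂) (hc : 0 < c) :
    {g : U n → ℝ | ∃ y ∈ Kp p (∅ : Finset (Fin n)),
      (∀ y' ∈ Kp p (∅ : Finset (Fin n)), Hf g y' ≤ Hf g y) ∧
      ∃ i, max 1 ((p / c * (5 * C₂ + 76)) ^ (1 / (p - 2))) *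
        (Real.log n) ^ (1 / (2 * (p - 2))) < |y i|} ⊆ bad p C₂ c n := by
  intro g hg
  rw [Set.mem_ofPred_eq] at hg
  obtain ⟨y, hy, hmax, i, hi⟩ := hg
  by_contra hcon
  unfold bad at hcon
  rw [Set.mem_union, not_or, Set.mem_union, not_or, Set.mem_union, not_or, Set.mem_ofPred_eq,
    Set.mem_ofPred_eq, not_lt, not_lt] at hcon
  obtain ⟨⟨⟨c1, c2⟩, c3⟩, c4⟩ := hcon
  have d1 : ∀ l < 5 * n, g ∉ GB p C₂ {i} l := by
    intro l hl hgl
    exact c1 (Set.mem_biUnion (Finset.mem_univ i)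
      (Set.mem_biUnion (Finset.mem_coe.2 (Finset.mem_range.2 hl)) hgl))
  have d2 : ∀ k : ℕ, 1 ≤ k → k ≤ 5 * n → M p {i} g (fun j => Real.sqrt k * row g i j) ≤
      ak p {i} g k + Real.sqrt k * tt n := by
    intro k hk1 hk2
    have h3 : g ∉ RU p i k := fun hgk => c2 (Set.mem_biUnion (Finset.mem_univ i)
      (Set.mem_biUnion (Finset.mem_coe.2 (Finset.mem_Icc.2 ⟨hk1, hk2⟩)) hgk))
    rw [mem_RU, not_lt] at h3
    exact h3
  have := final_det hFIN hADD hN hp hn3 hC₂ hc g y hy hmax i d1 d2 c3 c4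
  linarith

theorem bad_prob (hRES : T_RES) (hLAW : T_LAW) (hN : T_NRM) {p : ℝ} (hp : 2 < p) {n : ℕ}
    (hn : 1 ≤ n) {C₂ c : ℝ} (hc : 0 < c)
    (hP1 : ∀ S : Finset (Fin n), S.card ≤ 1 → ∀ k : ℕ, k ≤ 5 * n →
      ((gam (U n)).prod (gam (Fin n))) (RB p C₂ S k) ≤ ENNReal.ofReal (1 / (n : ℝ) ^ 6))
    (hlow : c * (n * Real.sqrt n) ≤ ∫ g, M p (∅ : Finset (Fin n)) g 0 ∂(gam (U n))) :
    gam (U n) (bad p C₂ c n) ≤ ENNReal.ofReal (5 / n + 5 / n + Real.exp (-(c ^ 2 / 64 * n)) +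
      Real.exp (-(n : ℝ) / 4)) := by
  have hn' : (0 : ℝ) < n := by exact_mod_cast hn
  have hn1 : (1 : ℝ) ≤ n := by exact_mod_cast hn
  have q1 : gam (U n) (⋃ i ∈ (Finset.univ : Finset (Fin n)), ⋃ l ∈ Finset.range (5 * n),
      GB p C₂ {i} l) ≤ ENNReal.ofReal (5 / n) := by
    refine (measure_biUnion_finset_le _ _).trans ?_
    calc ∑ i : Fin n, gam (U n) (⋃ l ∈ Finset.range (5 * n), GB p C₂ {i} l)
        ≤ ∑ i : Fin n, ∑ l ∈ Finset.range (5 * n), gam (U n) (GB p C₂ {i} l) :=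
          Finset.sum_le_sum fun i _ => measure_biUnion_finset_le _ _
      _ ≤ ∑ _i : Fin n, ∑ _l ∈ Finset.range (5 * n), ENNReal.ofReal (1 / (n : ℝ) ^ 3) :=
          Finset.sum_le_sum fun i _ => Finset.sum_le_sum fun l hl =>
            prob_GB hp hn C₂ {i} l (hP1 {i} (by simp) l (Finset.mem_range.1 hl).le)
      _ = ENNReal.ofReal (5 / n) := by
          rw [Finset.sum_const, Finset.sum_const, Finset.card_univ, Fintype.card_fin,
            Finset.card_range, nsmul_eq_mul, nsmul_eq_mul, ← ENNReal.ofReal_natCast,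
            ← ENNReal.ofReal_natCast, ← ENNReal.ofReal_mul (by positivity),
            ← ENNReal.ofReal_mul (by positivity)]
          congr 1
          push_cast
          field_simp
  have q2 : gam (U n) (⋃ i ∈ (Finset.univ : Finset (Fin n)), ⋃ k ∈ Finset.Icc 1 (5 * n),
      RU p i k) ≤ ENNReal.ofReal (5 / n) := by
    refine (measure_biUnion_finset_le _ _).trans ?_
    calc ∑ i : Fin n, gam (U n) (⋃ k ∈ Finset.Icc 1 (5 * n), RU p i k)
        ≤ ∑ i : Fin n, ∑ k ∈ Finset.Icc 1 (5 * n), gam (U n) (RU p i k) :=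
          Finset.sum_le_sum fun i _ => measure_biUnion_finset_le _ _
      _ ≤ ∑ _i : Fin n, ∑ _k ∈ Finset.Icc 1 (5 * n), ENNReal.ofReal (1 / (n : ℝ) ^ 8) :=
          Finset.sum_le_sum fun i _ => Finset.sum_le_sum fun k hk =>
            prob_RU hRES hp hn i k (Finset.mem_Icc.1 hk).1
      _ = ENNReal.ofReal (5 / (n : ℝ) ^ 6) := by
          rw [Finset.sum_const, Finset.sum_const, Finset.card_univ, Fintype.card_fin,
            Nat.card_Icc, nsmul_eq_mul, nsmul_eq_mul, ← ENNReal.ofReal_natCast,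
            ← ENNReal.ofReal_natCast, ← ENNReal.ofReal_mul (by positivity),
            ← ENNReal.ofReal_mul (by positivity)]
          congr 1
          rw [Nat.add_sub_cancel]
          push_cast
          field_simp
      _ ≤ ENNReal.ofReal (5 / n) := by
          apply ENNReal.ofReal_le_ofReal
          apply div_le_div_of_nonneg_left (by norm_num) hn'
          exact le_self_pow₀ hn1 (by norm_num)
  have q3 := M_low hc hp hn hlow
  have q4 := dg_tail hN hLAW hn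
  unfold bad
  rw [ENNReal.ofReal_add (by positivity) (by positivity),
    ENNReal.ofReal_add (by positivity) (by positivity),
    ENNReal.ofReal_add (by positivity) (by positivity)]
  refine (measure_union_le _ _).trans (add_le_add ?_ q4)
  refine (measure_union_le _ _).trans (add_le_add ?_ q3)
  exact (measure_union_le _ _).trans (add_le_add q1 q2)

theorem core (hRES : T_RES) (hLAW : T_LAW) (hADD : T_ADD) (hN : T_NRM) (hEUP : T_EUP)
    (hELO : T_ELO) (hREM : T_REM) (hINS : T_INS) (hFIN : T_FIN) {p : ℝ} (hp : 2 < p) :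
    ∃ K : ℝ, 1 ≤ K ∧ Core p (1 / (2 * (p - 2))) K := by
  obtain ⟨C₂, hC₂, hP1⟩ := P1 hRES hLAW hREM hINS hN hEUP hp
  obtain ⟨c, hc, n₀, hlow⟩ := mean_low hELO
  refine ⟨max 1 ((p / c * (5 * C₂ + 76)) ^ (1 / (p - 2))), le_max_left _ _, ?_⟩
  unfold Core
  have hlim : Tendsto (fun n : ℕ => ENNReal.ofReal (5 / (n : ℝ) + 5 / n +
      Real.exp (-(c ^ 2 / 64 * n)) + Real.exp (-(n : ℝ) / 4))) atTop (𝓝 0) := by
    rw [← ENNReal.ofReal_zero]
    apply ENNReal.tendsto_ofReal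
    have t1 : Tendsto (fun n : ℕ => 5 / (n : ℝ)) atTop (𝓝 0) :=
      tendsto_const_div_atTop_nhds_zero_nat 5
    have t2 : Tendsto (fun n : ℕ => Real.exp (-(c ^ 2 / 64 * n))) atTop (𝓝 0) := by
      apply Real.tendsto_exp_neg_atTop_nhds_zero.comp
      exact tendsto_natCast_atTop_atTop.const_mul_atTop (by positivity)
    have t3 : Tendsto (fun n : ℕ => Real.exp (-(n : ℝ) / 4)) atTop (𝓝 0) := by
      have : (fun n : ℕ => Real.exp (-(n : ℝ) / 4)) = fun n : ℕ => Real.exp (-((n : ℝ) / 4)) := by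
        funext n; rw [neg_div]
      rw [this]
      apply Real.tendsto_exp_neg_atTop_nhds_zero.comp
      exact tendsto_natCast_atTop_atTop.atTop_div_const (by norm_num)
    have := ((t1.add t1).add t2).add t3
    simpa using this
  refine tendsto_of_tendsto_of_tendsto_of_le_of_le' tendsto_const_nhds hlim
    (Filter.Eventually.of_forall fun _ => zero_le) ?_
  filter_upwards [hP1, eventually_ge_atTop 3, eventually_ge_atTop n₀] with n h1 h2 h3
  have hn1 : 1 ≤ n := by omega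
  exact (measure_mono (bad_incl hFIN hADD hN hp h2 hC₂ hc)).trans
    (bad_prob hRES hLAW hN hp hn1 hc h1 (hlow p hp n h3 hn1))

end

end Pool.Agent.N573.LPG
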