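import Pool.Agent.N573.LPG.Base
import Pool.Agent.H320R2.LD.CONC
import Pool.Agent.H320R2.LD.MGF

set_option autoImplicit false

open MeasureTheory ProbabilityTheory Filter Topology

namespace Pool.Agent.N573.LPG

open Pool.Agent.H320R2.LD

noncomputable section

variable {n : ℕ} {p : ℝ}

theorem conc_up {V : Type} [Fintype V] {f : (V → ℝ) → ℝ} {L : ℝ} (hL : 0 < L) (hf : Lip L f)
    {u : ℝ} (hu : 0 ≤ u) : gam V {x | (∫ y, f y ∂(gam V)) + u ≤ f x} ≤
      ENNReal.ofReal (Real.exp (-u ^ 2 / (4 * L ^ 2))) := by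
  have h := prove_CONC prove_MGF V f L hL hf u hu
  rw [← ofReal_measureReal]
  exact ENNReal.ofReal_le_ofReal h

theorem lip_neg {V : Type} [Fintype V] {f : (V → ℝ) → ℝ} {L : ℝ} (hf : Lip L f) :
    Lip L (fun x => - f x) := by
  intro x y
  have := hf x y
  rw [show -f x - -f y = -(f x - f y) by ring, abs_neg]
  exact this

theorem conc_lo {V : Type} [Fintype V] {f : (V → ℝ) → ℝ} {L : ℝ} (hL : 0 < L) (hf : Lip L f)
    {u : ℝ} (hu : 0 ≤ u) : gam V {x | f x + u ≤ (∫ y, f y ∂(gam V))} ≤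
      ENNReal.ofReal (Real.exp (-u ^ 2 / (4 * L ^ 2))) := by
  have h := conc_up hL (lip_neg hf) hu
  refine le_trans (measure_mono ?_) h
  intro x hx
  have hx' : f x + u ≤ ∫ y, f y ∂(gam V) := hx
  show (∫ y, -f y ∂(gam V)) + u ≤ -f x
  rw [integral_neg]
  linarith

theorem lip_int {V : Type} [Fintype V] {f : (V → ℝ) → ℝ} {L : ℝ} (hL : 0 < L) (hf : Lip L f) :
    Integrable f (gam V) := (prove_MGF V f L hL hf).1

theorem nrm_sub_comm {V : Type} [Fintype V] (x y : V → ℝ) : nrm (x - y) = nrm (y - x) := by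
  unfold nrm nsq; congr 1
  exact Finset.sum_congr rfl fun i _ => by simp only [Pi.sub_apply]; ring

theorem nrm_zero {V : Type} [Fintype V] : nrm (0 : V → ℝ) = 0 := by
  unfold nrm nsq; simp

theorem nrm_smul {V : Type} [Fintype V] (c : ℝ) (x : V → ℝ) :
    nrm (fun j => c * x j) = |c| * nrm x := by
  unfold nrm nsq
  have : ∑ v, (c * x v) ^ 2 = c ^ 2 * ∑ v, x v ^ 2 := by
    rw [Finset.mul_sum]; exact Finset.sum_congr rfl fun i _ => by ring
  rw [this, Real.sqrt_mul (sq_nonneg _), Real.sqrt_sq_eq_abs]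

theorem nrm_add_le {V : Type} [Fintype V] (x y : V → ℝ) : nrm (x + y) ≤ nrm x + nrm y := by
  have h0 : 0 ≤ nrm x + nrm y := add_nonneg (nrm_nn x) (nrm_nn y)
  have hcs : ∑ i, x i * y i ≤ nrm x * nrm y := by
    have h := Finset.sum_mul_sq_le_sq_mul_sq Finset.univ x y
    have h1 : (nrm x * nrm y) ^ 2 = (∑ i, x i ^ 2) * ∑ i, y i ^ 2 := by
      rw [mul_pow, nrm_sq', nrm_sq']; rfl
    rw [← h1] at h
    exact (le_abs_self _).trans ((sq_le_sq₀ (abs_nonneg _)
      (mul_nonneg (nrm_nn x) (nrm_nn y))).1 (by rwa [sq_abs]))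
  have h2 : nrm (x + y) ^ 2 ≤ (nrm x + nrm y) ^ 2 := by
    rw [nrm_sq', add_sq, nrm_sq', nrm_sq']
    have : nsq (x + y) = nsq x + 2 * (∑ i, x i * y i) + nsq y := by
      unfold nsq
      rw [Finset.mul_sum, ← Finset.sum_add_distrib, ← Finset.sum_add_distrib]
      exact Finset.sum_congr rfl fun i _ => by simp only [Pi.add_apply]; ring
    rw [this]
    linarith
  exact (sq_le_sq₀ (nrm_nn _) h0).1 h2

theorem cont_nrm {V : Type} [Fintype V] : Continuous (fun x : V → ℝ => nrm x) := by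
  unfold nrm nsq; fun_prop

theorem lip_nrm {V : Type} [Fintype V] : Lip 1 (fun x : V → ℝ => nrm x) := by
  intro x y
  rw [one_mul, abs_le]
  constructor
  · have := nrm_add_le (y - x) x
    rw [sub_add_cancel] at this
    rw [nrm_sub_comm]
    linarith
  · have := nrm_add_le (x - y) y
    rw [sub_add_cancel] at this
    linarith

/-- continuity from a Lipschitz bound -/
theorem cont_of_lip {V W : Type} [Fintype V] [Fintype W] {F : (V → ℝ) × (W → ℝ) → ℝ} {a b : ℝ}
    (h : ∀ q q', |F q - F q'| ≤ a * nrm (q.1 - q'.1) + b * nrm (q.2 - q'.2)) : Continuous F := by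
  rw [continuous_iff_continuousAt]
  intro q
  rw [ContinuousAt, tendsto_iff_dist_tendsto_zero]
  have hc : Continuous (fun q' : (V → ℝ) × (W → ℝ) => a * nrm (q'.1 - q.1) + b * nrm (q'.2 - q.2)) :=
    (continuous_const.mul (cont_nrm.comp (continuous_fst.sub continuous_const))).add
      (continuous_const.mul (cont_nrm.comp (continuous_snd.sub continuous_const)))
  have h0 : Tendsto (fun q' : (V → ℝ) × (W → ℝ) => a * nrm (q'.1 - q.1) + b * nrm (q'.2 - q.2))
      (𝓝 q) (𝓝 0) := by
    have := hc.tendsto q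
    simpa [nrm_zero] using this
  refine squeeze_zero (fun _ => dist_nonneg) (fun q' => ?_) h0
  rw [Real.dist_eq]
  exact h q' q

theorem cont_M (hp : 2 < p) (S : Finset (Fin n)) :
    Continuous (fun q : (U n → ℝ) × (Fin n → ℝ) => M p S q.1 q.2) :=
  cont_of_lip (a := 2 * n) (b := 2 * Real.sqrt n) fun _ _ => t_LIP p hp n S _ _ _ _

theorem lip_M_v (hp : 2 < p) (S : Finset (Fin n)) (g : U n → ℝ) (v : Fin n → ℝ) :
    Lip (2 * Real.sqrt n) (fun w => M p S g (v + w)) := by
  intro w w'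
  have := t_LIP p hp n S g g (v + w) (v + w')
  rw [sub_self, nrm_zero, mul_zero, zero_add, add_sub_add_left_eq_sub] at this
  exact this

theorem lip_M_g (hp : 2 < p) (S : Finset (Fin n)) (v : Fin n → ℝ) :
    Lip (2 * n) (fun g : U n → ℝ => M p S g v) := by
  intro g g'
  have := t_LIP p hp n S g g' v v
  rw [sub_self, nrm_zero, mul_zero, add_zero] at this
  exact this

theorem int_M (hn : 1 ≤ n) (hp : 2 < p) (S : Finset (Fin n)) (g : U n → ℝ) (v : Fin n → ℝ) :
    Integrable (fun w => M p S g (v + w)) (gam (Fin n)) := by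
  have hn' : (0 : ℝ) < n := by exact_mod_cast hn
  exact lip_int (by positivity) (lip_M_v hp S g v)

/-- mean value with an additional unit field -/
def RI (p : ℝ) {n : ℕ} (S : Finset (Fin n)) (g : U n → ℝ) (v : Fin n → ℝ) : ℝ :=
  ∫ w, M p S g (v + w) ∂(gam (Fin n))

/-- linear response -/
def Rr (p : ℝ) {n : ℕ} (S : Finset (Fin n)) (g : U n → ℝ) (v : Fin n → ℝ) : ℝ :=
  RI p S g v - M p S g v

theorem RI_lip (hn : 1 ≤ n) (hp : 2 < p) (S : Finset (Fin n)) (g g' : U n → ℝ)
    (v v' : Fin n → ℝ) : |RI p S g v - RI p S g' v'| ≤ 2 * n * nrm (g - g') +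
        2 * Real.sqrt n * nrm (v - v') := by
  unfold RI
  rw [← integral_sub (int_M hn hp S g v) (int_M hn hp S g' v')]
  have h1 : ∀ w, ‖M p S g (v + w) - M p S g' (v' + w)‖ ≤ 2 * n * nrm (g - g') +
        2 * Real.sqrt n * nrm (v - v') := by
    intro w
    have := t_LIP p hp n S g g' (v + w) (v' + w)
    rw [add_sub_add_right_eq_sub] at this
    rwa [Real.norm_eq_abs]
  have h2 := norm_integral_le_of_norm_le_const (μ := gam (Fin n))
    (Filter.Eventually.of_forall h1)
  simpa using h2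

theorem cont_RI (hn : 1 ≤ n) (hp : 2 < p) (S : Finset (Fin n)) :
    Continuous (fun q : (U n → ℝ) × (Fin n → ℝ) => RI p S q.1 q.2) :=
  cont_of_lip (a := 2 * n) (b := 2 * Real.sqrt n) fun _ _ => RI_lip hn hp S _ _ _ _

theorem cont_Rr (hn : 1 ≤ n) (hp : 2 < p) (S : Finset (Fin n)) :
    Continuous (fun q : (U n → ℝ) × (Fin n → ℝ) => Rr p S q.1 q.2) :=
  (cont_RI hn hp S).sub (cont_M hp S)

theorem M_mono (hp : 2 < p) {S T : Finset (Fin n)} (h : S ⊆ T) (g : U n → ℝ) (v : Fin n → ℝ) :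
    M p T g v ≤ M p S g v := by
  obtain ⟨y, hy, hM, -⟩ := t_ATT p hp n T g v
  rw [hM]
  exact le_M hp S g v y ⟨hy.1, fun j hj => hy.2 j (h hj)⟩

theorem Rr_le (hN : T_NRM) (hn : 1 ≤ n) (hp : 2 < p) (S : Finset (Fin n)) (g : U n → ℝ)
    (v : Fin n → ℝ) : Rr p S g v ≤ 2 * n := by
  have h1 : ∀ w, M p S g (v + w) ≤ M p S g v + 2 * Real.sqrt n * nrm w := by
    intro w
    have := (abs_le.1 (t_LIP p hp n S g g (v + w) v)).2
    rw [sub_self, nrm_zero, mul_zero, zero_add, add_sub_cancel_left] at this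
    linarith
  obtain ⟨hi, hle⟩ := hN (Fin n)
  have h2 : RI p S g v ≤ M p S g v + 2 * Real.sqrt n * ∫ w, nrm w ∂(gam (Fin n)) := by
    unfold RI
    calc ∫ w, M p S g (v + w) ∂(gam (Fin n))
        ≤ ∫ w, (M p S g v + 2 * Real.sqrt n * nrm w) ∂(gam (Fin n)) :=
          integral_mono (int_M hn hp S g v) ((integrable_const _).add (hi.const_mul _)) h1
      _ = _ := by
          rw [integral_add (integrable_const _) (hi.const_mul _), integral_const_mul]
          simp
  rw [Fintype.card_fin] at hle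
  have h3 : 2 * Real.sqrt n * ∫ w, nrm w ∂(gam (Fin n)) ≤ 2 * n := by
    have := Real.mul_self_sqrt (Nat.cast_nonneg (α := ℝ) n)
    have h4 := mul_le_mul_of_nonneg_left hle (Real.sqrt_nonneg (n : ℝ))
    linarith
  unfold Rr
  linarith

/-! ### dependence on the row -/

theorem pr_inj (i : Fin n) : Function.Injective (fun j : Fin n => pr i j) := by
  intro a b h
  have h' : pr i a = pr i b := h
  unfold pr at h'
  simp only [Subtype.mk.injEq, Prod.mk.injEq] at h'
  obtain ⟨h1, h2⟩ := h'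
  rcases le_total i a with h3 | h3
  · rcases le_total i b with h4 | h4
    · rwa [max_eq_right h3, max_eq_right h4] at h2
    · rw [min_eq_left h3, min_eq_right h4] at h1
      rw [max_eq_right h3, max_eq_left h4] at h2
      rw [h2, ← h1]
  · rcases le_total i b with h4 | h4
    · rw [min_eq_right h3, min_eq_left h4] at h1
      rw [max_eq_left h3, max_eq_right h4] at h2
      rw [← h2, h1]
    · rwa [min_eq_right h3, min_eq_right h4] at h1

theorem M_dep {T : Finset (Fin n)} {i : Fin n} (hi : i ∈ T) {g g' : U n → ℝ}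
    (h : ∀ z, (¬ ∃ j, pr i j = z) → g z = g' z) (v : Fin n → ℝ) : M p T g v = M p T g' v := by
  have key : ∀ y ∈ Kp p T, Hf g y = Hf g' y := by
    intro y hy
    have hyi := hy.2 i hi
    unfold Hf
    refine Finset.sum_congr rfl fun a _ => Finset.sum_congr rfl fun b _ => ?_
    by_cases ha : a = i
    · rw [ha, hyi]; ring
    · by_cases hb : b = i
      · rw [hb, hyi]; ring
      · have : g (pr a b) = g' (pr a b) := by
          apply h
          rintro ⟨j, hj⟩
          unfold pr at hj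
          simp only [Subtype.mk.injEq, Prod.mk.injEq] at hj
          obtain ⟨h1, h2⟩ := hj
          rcases le_total i j with h3 | h3
          · rw [min_eq_left h3] at h1
            rcases le_total a b with h4 | h4
            · rw [min_eq_left h4] at h1; exact ha h1.symm
            · rw [min_eq_right h4] at h1; exact hb h1.symm
          · rw [max_eq_left h3] at h2
            rcases le_total a b with h4 | h4
            · rw [max_eq_right h4] at h2; exact hb h2.symm
            · rw [max_eq_left h4] at h2; exact ha h2.symm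
        unfold Wm
        rw [this]
  unfold M
  congr 1
  apply Set.image_congr
  intro y hy
  rw [key y hy]

theorem RI_dep {T : Finset (Fin n)} {i : Fin n} (hi : i ∈ T) {g g' : U n → ℝ}
    (h : ∀ z, (¬ ∃ j, pr i j = z) → g z = g' z) (v : Fin n → ℝ) : RI p T g v = RI p T g' v := by
  unfold RI
  simp only [M_dep hi h]

/-! ### fibrewise bounds -/

theorem prod_le_snd {α β : Type} [MeasurableSpace α] [MeasurableSpace β] (μ : Measure α)
    (ν : Measure β) [IsProbabilityMeasure μ] [IsProbabilityMeasure ν] {s : Set (α × β)}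
    (hs : MeasurableSet s) {c : ENNReal} (h : ∀ y, μ {x | (x, y) ∈ s} ≤ c) : (μ.prod ν) s ≤ c := by
  rw [Measure.prod_apply_symm hs]
  calc ∫⁻ y, μ ((fun x => (x, y)) ⁻¹' s) ∂ν ≤ ∫⁻ _, c ∂ν := lintegral_mono fun y => h y
    _ = c := by simp

theorem prod_le_fst {α β : Type} [MeasurableSpace α] [MeasurableSpace β] (μ : Measure α)
    (ν : Measure β) [IsProbabilityMeasure μ] [IsProbabilityMeasure ν] {s : Set (α × β)}
    (hs : MeasurableSet s) {c : ENNReal} (h : ∀ x, ν {y | (x, y) ∈ s} ≤ c) : (μ.prod ν) s ≤ c := by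
  rw [Measure.prod_apply hs]
  calc ∫⁻ x, ν (Prod.mk x ⁻¹' s) ∂μ ≤ ∫⁻ _, c ∂μ := lintegral_mono fun y => h y
    _ = c := by simp

/-- the resampled array -/
def Psi {n : ℕ} (i : Fin n) (q : (U n → ℝ) × (Fin n → ℝ)) : U n → ℝ := by
  classical
  exact fun z => if h : ∃ j, pr i j = z then q.2 h.choose else q.1 z

theorem Psi_off (i : Fin n) (q : (U n → ℝ) × (Fin n → ℝ)) (z : U n) (h : ¬ ∃ j, pr i j = z) :
    Psi i q z = q.1 z := by
  unfold Psi; rw [dif_neg h]

theorem Psi_on (i : Fin n) (q : (U n → ℝ) × (Fin n → ℝ)) (j : Fin n) :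
    Psi i q (pr i j) = q.2 j := by
  unfold Psi
  have h : ∃ j', pr i j' = pr i j := ⟨j, rfl⟩
  rw [dif_pos h]
  exact congrArg q.2 (pr_inj i h.choose_spec)

/-- events about the row `i` and the array without the row `i` -/
theorem row_event (hRES : T_RES) (i : Fin n) {E : Set ((U n → ℝ) × (Fin n → ℝ))}
    (hE : MeasurableSet E)
    (hdep : ∀ g g' : U n → ℝ, (∀ z, (¬ ∃ j, pr i j = z) → g z = g' z) → ∀ w,
      ((g, w) ∈ E ↔ (g', w) ∈ E)) {c : ENNReal}
    (h : ∀ g : U n → ℝ, gam (Fin n) {w | (g, w) ∈ E} ≤ c) :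
    gam (U n) {g | (g, row g i) ∈ E} ≤ c := by
  classical
  have hmp := hRES (U n) (Fin n) (fun j => pr i j) (pr_inj i) (Psi i)
    (fun q z hz => Psi_off i q z hz) (fun q j => Psi_on i q j)
  have hm : MeasurableSet {g : U n → ℝ | (g, row g i) ∈ E} := by
    have : Measurable (fun g : U n → ℝ => (g, row g i)) := by
      apply measurable_id.prodMk
      unfold row
      exact measurable_pi_lambda _ fun j => measurable_pi_apply _
    exact this hE
  rw [← hmp.measure_preimage hm.nullMeasurableSet]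
  have e : Psi i ⁻¹' {g : U n → ℝ | (g, row g i) ∈ E} = E := by
    ext ⟨g, w⟩
    simp only [Set.mem_preimage, Set.mem_ofPred_eq]
    have h1 : row (Psi i (g, w)) i = w := by
      funext j
      unfold row
      rw [Psi_on]
    rw [h1]
    exact hdep _ _ (fun z hz => Psi_off i _ z hz) w
  rw [e]
  exact prod_le_fst _ _ hE h

end

end Pool.Agent.N573.LPG
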