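import Pool.Agent.N573.LPG.Stm

/-!
# MP_98bed0_pr: deterministic tasks
-/

set_option autoImplicit false

open MeasureTheory ProbabilityTheory Filter Topology

namespace Pool.Agent.N573.LPG

open Pool.Agent.H320R2.LD

noncomputable section

/-- the row `i` of the array -/
def row {n : ℕ} (g : U n → ℝ) (i : Fin n) : Fin n → ℝ := fun j => g (pr i j)

/-- the diagonal of the array -/
def dg {n : ℕ} (g : U n → ℝ) : Fin n → ℝ := fun i => g (pr i i)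

/-- the maximum is attained -/
def T_ATT : Prop := ∀ (p : ℝ), 2 < p → ∀ (n : ℕ) (S : Finset (Fin n)) (g : U n → ℝ)
  (v : Fin n → ℝ), ∃ y ∈ Kp p S, M p S g v = Hf g y + 2 * dt v y ∧
    ∀ y' ∈ Kp p S, Hf g y' + 2 * dt v y' ≤ M p S g v

/-- Euclidean norm on the constraint set -/
def T_SQ : Prop := ∀ (p : ℝ), 2 < p → ∀ (n : ℕ) (S : Finset (Fin n)), ∀ y ∈ Kp p S,
  ∑ i, y i ^ 2 ≤ n

/-- Lipschitz bounds -/
def T_LIP : Prop := ∀ (p : ℝ), 2 < p → ∀ (n : ℕ) (S : Finset (Fin n)) (g g' : U n → ℝ)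
  (v v' : Fin n → ℝ), |M p S g v - M p S g' v'| ≤ 2 * n * nrm (g - g') +
    2 * Real.sqrt n * nrm (v - v')

/-- task REM: average cost of the removal of a coordinate -/
def T_REM : Prop := ∀ (p : ℝ), 2 < p → ∀ (n : ℕ) (S : Finset (Fin n)) (g : U n → ℝ)
  (v : Fin n → ℝ), ∑ i ∈ Sᶜ, (M p S g v - M p (insert i S) g v) ≤
    2 * M p S g v + 2 * Real.sqrt n * nrm v + Real.sqrt 2 * nrm (dg g) * n

/-- task INS: gain by the insertion of a coordinate -/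
def T_INS : Prop := ∀ (p : ℝ), 2 < p → ∀ (n : ℕ), 2 ≤ n → ∀ (S : Finset (Fin n)) (g : U n → ℝ)
  (v : Fin n → ℝ) (i : Fin n), i ∉ S →
    M p (insert i S) g (v + row g i) - M p S g v ≤
      2 / n * M p S g v + 6 * |v i| + 3 * |Wm g i i|

/-- task FIN: the last step.  `a = |y i|` for a maximizer `y`, `k` with `(2 a)² ≤ k`; `L` bounds the
linear response and `D` the diagonal entry -/
def T_FIN : Prop := ∀ (p : ℝ), 2 < p → ∀ (n : ℕ), 1 ≤ n → ∀ (g : U n → ℝ) (y : Fin n → ℝ),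
  y ∈ Kp p (∅ : Finset (Fin n)) → (∀ y' ∈ Kp p (∅ : Finset (Fin n)), Hf g y' ≤ Hf g y) →
  ∀ (i : Fin n) (k : ℕ) (L D : ℝ), (2 * |y i|) ^ 2 ≤ k → |Wm g i i| ≤ D →
    M p {i} g (fun j => Real.sqrt k * row g i j) ≤ M p {i} g 0 + L →
    2 / p * (|y i| ^ p / n) * M p ∅ g 0 ≤ L + 2 * D * |y i| ^ 2

end

end Pool.Agent.N573.LPG
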